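import Pool.Agent.Work.MP_215640_nt.U.BaseM

/-!
MODULE BASER. `U/BaseM.lean` for sets closed under preimages only above `n0 ≤ g`.

The same proof: `base_m` uses the closure only at numbers `≥ g^2 ≥ g ≥ n0` (even preimages of `g`, then of
elements `≥ a ≥ g`). Copy `U/BaseM.lean` (prefix `br_` instead of `bm_`), with
`hG : ∀ n, n0 ≤ n → jugglerStep n ∈ G → n ∈ G` and `n0 ≤ a` in `bm_sub` (elements of `bmT a (i+1)` are
`≥ a^(2^(i+1)) ≥ a`, `bm_range`).
-/

set_option autoImplicit false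

namespace Pool.Agent.Work.MP_215640_nt

open Finset Polynomial Filter N55eda7c2

private theorem br_J_even (x n : ℕ) (hn : Even n) (h1 : x ^ 2 ≤ n) (h2 : n < (x + 1) ^ 2) :
    jugglerStep n = x := by
  unfold jugglerStep
  rw [if_pos hn, ← Real.sqrt_eq_rpow, Nat.floor_eq_iff (Real.sqrt_nonneg _)]
  constructor
  · apply Real.le_sqrt_of_sq_le
    exact_mod_cast h1
  · rw [Real.sqrt_lt' (by positivity)]
    exact_mod_cast h2

/-- the even numbers between two consecutive squares -/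
private def brB (x : ℕ) : Finset ℕ := (Ico (x ^ 2) ((x + 1) ^ 2)).filter (fun n => Even n)

private theorem br_card (x : ℕ) : x ≤ (brB x).card := by
  have h1 : (range x).card ≤ (brB x).card := by
    apply card_le_card_of_injOn (fun j => x ^ 2 + x ^ 2 % 2 + 2 * j)
    · intro j hj
      have hj' : j < x := by simpa using hj
      have hm : x ^ 2 % 2 < 2 := Nat.mod_lt _ (by norm_num)
      simp only [brB, coe_filter, mem_Ico, Set.mem_setOf_eq]
      refine ⟨⟨by omega, ?_⟩, ?_⟩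
      · have : (x + 1) ^ 2 = x ^ 2 + 2 * x + 1 := by ring
        omega
      · rw [Nat.even_iff]
        omega
    · intro j _ j' _ h
      simp only at h
      omega
  rwa [card_range] at h1

private theorem br_block (x : ℕ) (hx : 1 ≤ x) :
    (1 - 2 / (x : ℝ)) * (1 / x) ≤ ∑ n ∈ brB x, (1 : ℝ) / n := by
  have hx0 : (0 : ℝ) < x := by exact_mod_cast hx
  have h1 : ∀ n ∈ brB x, (1 : ℝ) / ((x : ℝ) + 1) ^ 2 ≤ 1 / n := by
    intro n hn
    rw [brB, mem_filter, mem_Ico] at hn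
    have hn0 : 0 < n := lt_of_lt_of_le (by positivity) hn.1.1
    apply one_div_le_one_div_of_le (by exact_mod_cast hn0)
    exact_mod_cast hn.1.2.le
  have h2 := card_nsmul_le_sum (brB x) (fun n : ℕ => (1 : ℝ) / n) _ h1
  refine le_trans ?_ h2
  rw [nsmul_eq_mul]
  have hc : (x : ℝ) ≤ (brB x).card := by exact_mod_cast br_card x
  calc (1 - 2 / (x : ℝ)) * (1 / x) ≤ x * (1 / ((x : ℝ) + 1) ^ 2) := by
        have e1 : (1 - 2 / (x : ℝ)) * (1 / x) = (x - 2) / x ^ 2 := by
          field_simp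
        rw [e1, mul_one_div, div_le_div_iff₀ (by positivity) (by positivity)]
        nlinarith [sq_nonneg (x : ℝ)]
    _ ≤ _ := mul_le_mul_of_nonneg_right hc (by positivity)

private def brT (a : ℕ) : ℕ → Finset ℕ
  | 0 => {a}
  | i + 1 => (brT a i).biUnion brB

private theorem br_range (a i : ℕ) : ∀ n ∈ brT a i, a ^ 2 ^ i ≤ n ∧ n < (a + 1) ^ 2 ^ i := by
  induction i with
  | zero => intro n hn; rw [brT, mem_singleton] at hn; rw [hn]; simp
  | succ i ih =>
    intro n hn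
    rw [brT, mem_biUnion] at hn
    obtain ⟨x, hx, hn⟩ := hn
    rw [brB, mem_filter, mem_Ico] at hn
    obtain ⟨h1, h2⟩ := ih x hx
    rw [pow_succ 2 i, pow_mul, pow_mul]
    constructor
    · exact (Nat.pow_le_pow_left h1 2).trans hn.1.1
    · exact hn.1.2.trans_le (Nat.pow_le_pow_left h2 2)

private theorem br_sub (G : Set ℕ) (n0 : ℕ) (hG : ∀ n, n0 ≤ n → jugglerStep n ∈ G → n ∈ G) (a : ℕ)
    (ha : a ∈ G) (ha0 : n0 ≤ a) (ha1 : 1 ≤ a) (i : ℕ) : ∀ n ∈ brT a i, n ∈ G := by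
  induction i with
  | zero => intro n hn; rw [brT, mem_singleton] at hn; rw [hn]; exact ha
  | succ i ih =>
    intro n hn
    have hr := (br_range a (i + 1) n hn).1
    have hge : a ≤ n := by
      refine le_trans ?_ hr
      exact Nat.le_self_pow (by positivity) a
    rw [brT, mem_biUnion] at hn
    obtain ⟨x, hx, hn⟩ := hn
    rw [brB, mem_filter, mem_Ico] at hn
    apply hG _ (ha0.trans hge)
    rw [br_J_even x n hn.2 hn.1.1 hn.1.2]
    exact ih x hx

private theorem br_disj (x y : ℕ) (hxy : x ≠ y) : Disjoint (brB x) (brB y) := by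
  rw [disjoint_left]
  intro n hx hy
  rw [brB, mem_filter, mem_Ico] at hx hy
  apply hxy
  rw [← br_J_even x n hx.2 hx.1.1 hx.1.2, br_J_even y n hy.2 hy.1.1 hy.1.2]

private theorem br_mass (a : ℕ) (ha : 4 ≤ a) (i : ℕ) :
    (1 / (a : ℝ)) * (1 / 4 + 3 / 4 * (1 / 4) ^ i) ≤ ∑ n ∈ brT a i, (1 : ℝ) / n := by
  induction i with
  | zero => rw [brT, sum_singleton]; norm_num
  | succ i ih =>
    have ha0 : (0 : ℝ) < a := by
      have : 0 < a := by omega
      exact_mod_cast this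
    rw [brT, sum_biUnion (fun x _ y _ hxy => br_disj x y hxy)]
    have hpow : (4 : ℝ) ^ (i + 1) ≤ ((a ^ 2 ^ i : ℕ) : ℝ) := by
      have h1 : i + 1 ≤ 2 ^ i := Nat.lt_two_pow_self
      have h2 : 4 ^ (i + 1) ≤ a ^ 2 ^ i :=
        calc 4 ^ (i + 1) ≤ 4 ^ 2 ^ i := Nat.pow_le_pow_right (by norm_num) h1
          _ ≤ a ^ 2 ^ i := Nat.pow_le_pow_left ha _
      exact_mod_cast h2
    obtain ⟨y, hy⟩ : ∃ y : ℝ, y = (1 / 4) ^ i := ⟨_, rfl⟩
    have hy0 : 0 < y := by rw [hy]; positivity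
    have hy1 : y ≤ 1 := by rw [hy]; exact pow_le_one₀ (by norm_num) (by norm_num)
    have hblock : ∀ x ∈ brT a i, (1 - y / 2) * (1 / (x : ℝ)) ≤ ∑ n ∈ brB x, (1 : ℝ) / n := by
      intro x hx
      have h1 := (br_range a i x hx).1
      have h2 : (4 : ℝ) ^ (i + 1) ≤ x := hpow.trans (by exact_mod_cast h1)
      have h3 : (0 : ℝ) < 4 ^ (i + 1) := by positivity
      have hx0 : (0 : ℝ) < x := by linarith
      have hx1 : 1 ≤ x := by
        have : 0 < x := by exact_mod_cast hx0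
        omega
      refine le_trans ?_ (br_block x hx1)
      apply mul_le_mul_of_nonneg_right _ (by positivity)
      have h4 : 2 / (x : ℝ) ≤ 2 / 4 ^ (i + 1) :=
        div_le_div_of_nonneg_left (by norm_num) h3 h2
      have h5 : 2 / (4 : ℝ) ^ (i + 1) = y / 2 := by
        rw [hy, pow_succ, one_div, inv_pow]
        field_simp
        norm_num
      linarith
    have hsum := sum_le_sum hblock
    rw [← mul_sum] at hsum
    refine le_trans ?_ hsum
    have hfac : 0 ≤ 1 - y / 2 := by linarith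
    have h6 := mul_le_mul_of_nonneg_left ih hfac
    refine le_trans ?_ h6
    rw [← hy, pow_succ, ← hy]
    have h7 : (0 : ℝ) < 1 / a := by positivity
    have h8 : 1 / 4 + 3 / 4 * (y * (1 / 4)) ≤ (1 - y / 2) * (1 / 4 + 3 / 4 * y) := by
      nlinarith
    calc 1 / (a : ℝ) * (1 / 4 + 3 / 4 * (y * (1 / 4)))
        ≤ 1 / (a : ℝ) * ((1 - y / 2) * (1 / 4 + 3 / 4 * y)) :=
          mul_le_mul_of_nonneg_left h8 h7.le
      _ = _ := by ring

theorem base_r (G : Set ℕ) (n0 : ℕ) (hG : ∀ n, n0 ≤ n → jugglerStep n ∈ G → n ∈ G) (g : ℕ)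
    (hg : g ∈ G) (hg2 : 2 ≤ g) (hgn : n0 ≤ g) :
    ∃ b0 T1 : ℝ, 0 < b0 ∧ ∀ t ≥ T1, b0 ≤ Lg G t := by
  classical
  obtain ⟨a, haG, ha4, han⟩ : ∃ a ∈ G, 4 ≤ a ∧ n0 ≤ a := by
    have h1 := br_card g
    have h2 : (brB g).Nonempty := by
      rw [← card_pos]; omega
    obtain ⟨n, hn⟩ := h2
    rw [brB, mem_filter, mem_Ico] at hn
    have hgn' : g ≤ n := by nlinarith [hn.1.1]
    refine ⟨n, ?_, ?_, hgn.trans hgn'⟩
    · apply hG _ (hgn.trans hgn')
      rw [br_J_even g n hn.2 hn.1.1 hn.1.2]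
      exact hg
    · nlinarith [hn.1.1]
  have ha0 : (0 : ℝ) < a := by
    have : 0 < a := by omega
    exact_mod_cast this
  have ha1 : (1 : ℝ) < a := by
    have : 1 < a := by omega
    exact_mod_cast this
  have hlog : 0 < Real.log a := Real.log_pos ha1
  refine ⟨1 / (4 * a), Real.log a, by positivity, fun t ht => ?_⟩
  have hex : ∃ i : ℕ, t ≤ 2 ^ i * Real.log a := by
    obtain ⟨i, hi⟩ := pow_unbounded_of_one_lt (t / Real.log a) (by norm_num : (1 : ℝ) < 2)
    rw [div_lt_iff₀ hlog] at hi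
    exact ⟨i, hi.le⟩
  obtain ⟨i, hi, hmin⟩ : ∃ i : ℕ, t ≤ 2 ^ i * Real.log a ∧ ∀ j < i, ¬ t ≤ 2 ^ j * Real.log a :=
    ⟨Nat.find hex, Nat.find_spec hex, fun j hj => Nat.find_min hex hj⟩
  have h2t : 2 ^ i * Real.log a ≤ 2 * t := by
    rcases Nat.eq_zero_or_pos i with h0 | h0
    · rw [h0, pow_zero, one_mul]; linarith
    · obtain ⟨j, rfl⟩ : ∃ j, i = j + 1 := ⟨i - 1, by omega⟩
      have := hmin j (by omega)
      push Not at this
      rw [pow_succ]
      linarith
  have hsub : brT a i ⊆ (range ⌈Real.exp (4 * t)⌉₊).filter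
      (fun n : ℕ => n ∈ G ∧ Real.exp t ≤ n) := by
    intro n hn
    obtain ⟨h1, h2⟩ := br_range a i n hn
    rw [mem_filter, mem_range, Nat.lt_ceil]
    have hpos : ∀ (x : ℕ) (hx : (0 : ℝ) < x), ((x ^ 2 ^ i : ℕ) : ℝ) =
        Real.exp (2 ^ i * Real.log x) := by
      intro x hx
      have : (2 : ℝ) ^ i * Real.log x = ((2 ^ i : ℕ) : ℝ) * Real.log x := by push_cast; rfl
      rw [this, Real.exp_nat_mul, Real.exp_log hx]
      push_cast
      rfl
    refine ⟨?_, br_sub G n0 hG a haG han (by omega) i n hn, ?_⟩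
    · have h3 : (n : ℝ) < (((a + 1) ^ 2 ^ i : ℕ) : ℝ) := by exact_mod_cast h2
      refine h3.trans_le ?_
      have ha1' : (0 : ℝ) < ((a + 1 : ℕ) : ℝ) := by positivity
      rw [hpos (a + 1) ha1']
      apply Real.exp_le_exp.2
      have h4 : Real.log ((a + 1 : ℕ) : ℝ) ≤ 2 * Real.log a := by
        have h5 : (2 : ℝ) * Real.log a = Real.log ((a : ℝ) ^ 2) := by
          rw [Real.log_pow]; norm_num
        rw [h5]
        apply Real.log_le_log ha1'
        have : a + 1 ≤ a ^ 2 := by nlinarith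
        exact_mod_cast this
      have h6 : (2 : ℝ) ^ i * Real.log ((a + 1 : ℕ) : ℝ) ≤ 2 ^ i * (2 * Real.log a) :=
        mul_le_mul_of_nonneg_left h4 (by positivity)
      linarith
    · have h3 : ((a ^ 2 ^ i : ℕ) : ℝ) ≤ n := by exact_mod_cast h1
      refine le_trans ?_ h3
      rw [hpos a ha0]
      exact Real.exp_le_exp.2 hi
  have hmass := br_mass a ha4 i
  have hle : ∑ n ∈ brT a i, (1 : ℝ) / n ≤ Lg G t := by
    unfold Lg
    refine sum_le_sum_of_subset_of_nonneg (fun n hn => ?_) fun n _ _ => by positivity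
    have := hsub hn
    rw [mem_filter] at this ⊢
    exact this
  refine le_trans ?_ (hmass.trans hle)
  have h9 : (0 : ℝ) < (1 / 4) ^ i := by positivity
  have h10 : 1 / (4 * (a : ℝ)) = 1 / a * (1 / 4) := by field_simp
  rw [h10]
  apply mul_le_mul_of_nonneg_left _ (by positivity)
  linarith

end Pool.Agent.Work.MP_215640_nt
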