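import Pool.Agent.Work.MP_215640_nt.U.FibreLg

/-!
SECTION R, definitions: the logarithmic mass `Lr G t r` of a set `G` in the window `[e^t, e^((1+r)t))`.
-/

set_option autoImplicit false

namespace Pool.Agent.Work.MP_215640_nt

open Finset Polynomial Filter

open Classical in
/-- sum of `1 / n` over the elements `n` of `G` with `e^t ≤ n < e^((1 + r) t)` -/
noncomputable def Lr (G : Set ℕ) (t r : ℝ) : ℝ :=
  ∑ n ∈ (range ⌈Real.exp ((1 + r) * t)⌉₊).filter (fun n : ℕ => n ∈ G ∧ Real.exp t ≤ n), (1 : ℝ) / n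

theorem Lr_three (G : Set ℕ) (t : ℝ) : Lr G t 3 = Lg G t := by
  unfold Lr Lg
  norm_num

theorem Lr_nonneg (G : Set ℕ) (t r : ℝ) : 0 ≤ Lr G t r := by
  unfold Lr
  exact sum_nonneg fun n _ => by positivity

theorem Lr_mono {G G' : Set ℕ} (h : G ⊆ G') (t r : ℝ) : Lr G t r ≤ Lr G' t r := by
  classical
  unfold Lr
  apply sum_le_sum_of_subset_of_nonneg
  · intro n hn
    rw [mem_filter] at hn ⊢
    exact ⟨hn.1, h hn.2.1, hn.2.2⟩
  · intro n _ _
    positivity

private theorem dr_log_step (n : ℕ) (hn : 1 ≤ n) :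
    (1 : ℝ) / ((n : ℝ) + 1) ≤ Real.log ((n : ℝ) + 1) - Real.log n := by
  have h0 : (0 : ℝ) < n := by exact_mod_cast hn
  rw [← Real.log_div (by positivity) h0.ne']
  have h1 := Real.one_sub_inv_le_log_of_pos (show (0 : ℝ) < ((n : ℝ) + 1) / n by positivity)
  refine le_trans (le_of_eq ?_) h1
  field_simp
  ring

/-- sums of `1/n` over real windows, upper bound -/
theorem harmonic_upper (a b : ℝ) (ha : 0 < a) (hab : a ≤ b) (S : Finset ℕ)
    (hS : ∀ n ∈ S, a ≤ n ∧ (n : ℝ) < b) :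
    ∑ n ∈ S, (1 : ℝ) / n ≤ Real.log b - Real.log a + 1 / a := by
  have hp : 0 < ⌈a⌉₊ := Nat.ceil_pos.2 ha
  obtain ⟨p, hpdef⟩ : ∃ p, p = ⌈a⌉₊ := ⟨_, rfl⟩
  rw [← hpdef] at hp
  have hpa : a ≤ p := by rw [hpdef]; exact Nat.le_ceil a
  have hp0 : (0 : ℝ) < p := by exact_mod_cast hp
  have h1 : ∀ m : ℕ, ∑ n ∈ Ico p (p + m + 1), (1 : ℝ) / n ≤
      Real.log ((p + m : ℕ) : ℝ) - Real.log p + 1 / p := by
    intro m
    induction m with
    | zero => simp
    | succ m ih =>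
      rw [sum_Ico_succ_top (by omega)]
      have h2 := dr_log_step (p + m) (by omega)
      push_cast at h2 ih ⊢
      have e1 : (p : ℝ) + (m + 1) = p + m + 1 := by ring
      rw [e1]
      have e2 : p + (m + 1) = p + m + 1 := by ring
      rw [e2]
      linarith
  rcases S.eq_empty_or_nonempty with h0 | ⟨x, hx⟩
  · rw [h0, sum_empty]
    have h2 : Real.log a ≤ Real.log b := Real.log_le_log ha hab
    have h3 : 0 < 1 / a := by positivity
    linarith
  · obtain ⟨M, hM, hmax⟩ := S.exists_max_image (fun n => n) ⟨x, hx⟩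
    have hpM : p ≤ M := by rw [hpdef]; exact Nat.ceil_le.2 (hS M hM).1
    obtain ⟨m, hm⟩ := Nat.exists_eq_add_of_le hpM
    have h2 : ∑ n ∈ S, (1 : ℝ) / n ≤ ∑ n ∈ Ico p (p + m + 1), (1 : ℝ) / n := by
      apply sum_le_sum_of_subset_of_nonneg
      · intro n hn
        rw [mem_Ico]
        refine ⟨by rw [hpdef]; exact Nat.ceil_le.2 (hS n hn).1, ?_⟩
        have := hmax n hn
        omega
      · intro n _ _
        positivity
    have h3 := h1 m
    rw [← hm] at h3 h2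
    have h4 : Real.log (M : ℝ) ≤ Real.log b := by
      apply Real.log_le_log _ (hS M hM).2.le
      have : 0 < M := by omega
      exact_mod_cast this
    have h5 : Real.log a ≤ Real.log p := Real.log_le_log ha hpa
    have h6 : 1 / (p : ℝ) ≤ 1 / a := one_div_le_one_div_of_le ha hpa
    linarith

theorem Lr_le (G : Set ℕ) (t r : ℝ) (ht : 0 ≤ t) (hr : 0 ≤ r) :
    Lr G t r ≤ r * t + Real.exp (-t) := by
  classical
  unfold Lr
  have h1 := harmonic_upper (Real.exp t) (Real.exp ((1 + r) * t)) (Real.exp_pos _)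
    (Real.exp_le_exp.2 (by nlinarith [mul_nonneg hr ht]))
    ((range ⌈Real.exp ((1 + r) * t)⌉₊).filter (fun n : ℕ => n ∈ G ∧ Real.exp t ≤ n)) ?_
  · rw [Real.log_exp, Real.log_exp, one_div, ← Real.exp_neg] at h1
    linarith
  · intro n hn
    rw [mem_filter, mem_range, Nat.lt_ceil] at hn
    exact ⟨hn.2.2, hn.1⟩

theorem Lr_full (G : Set ℕ) (t r : ℝ) (ht : 0 ≤ t)
    (hG : ∀ n : ℕ, Real.exp t ≤ n → (n : ℝ) < Real.exp ((1 + r) * t) → n ∈ G) :
    r * t - Real.exp (-t) ≤ Lr G t r := by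
  classical
  have he1 : 1 ≤ Real.exp t := Real.one_le_exp ht
  have hceil : (⌈Real.exp t⌉₊ : ℝ) ≤ Real.exp t + 1 := (Nat.ceil_lt_add_one (by positivity)).le
  have hceil0 : (0 : ℝ) < ⌈Real.exp t⌉₊ := by
    have := Nat.le_ceil (Real.exp t)
    linarith
  have hlog : Real.log (⌈Real.exp t⌉₊ : ℝ) ≤ t + Real.exp (-t) := by
    refine (Real.log_le_log hceil0 hceil).trans ?_
    have h1 : Real.exp t + 1 = Real.exp t * (1 + Real.exp (-t)) := by
      rw [mul_add, mul_one, ← Real.exp_add, add_neg_cancel, Real.exp_zero]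
    have h2 : 0 < Real.exp (-t) := Real.exp_pos _
    rw [h1, Real.log_mul (Real.exp_pos _).ne' (by positivity), Real.log_exp]
    have h3 := Real.log_le_sub_one_of_pos (show 0 < 1 + Real.exp (-t) by positivity)
    linarith
  rcases le_or_gt (⌈Real.exp t⌉₊ : ℝ) (Real.exp ((1 + r) * t)) with h | h
  · have hp1 : 1 ≤ ⌈Real.exp t⌉₊ := by
      have : 0 < ⌈Real.exp t⌉₊ := by exact_mod_cast hceil0
      omega
    have h1 := harmonic_window ⌈Real.exp t⌉₊ (Real.exp ((1 + r) * t)) hp1 h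
    rw [Real.log_exp] at h1
    have h2 : ∑ n ∈ Ico ⌈Real.exp t⌉₊ ⌈Real.exp ((1 + r) * t)⌉₊, (1 : ℝ) / n ≤ Lr G t r := by
      unfold Lr
      apply sum_le_sum_of_subset_of_nonneg
      · intro n hn
        rw [mem_Ico] at hn
        rw [mem_filter, mem_range]
        refine ⟨hn.2, hG n (Nat.ceil_le.1 hn.1) (Nat.lt_ceil.1 hn.2), Nat.ceil_le.1 hn.1⟩
      · intro n _ _
        positivity
    linarith
  · have h1 : (1 + r) * t ≤ Real.log (⌈Real.exp t⌉₊ : ℝ) := by
      rw [← Real.log_exp ((1 + r) * t)]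
      exact Real.log_le_log (Real.exp_pos _) h.le
    have h2 := Lr_nonneg G t r
    linarith

theorem Lr_compl (G : Set ℕ) (t r : ℝ) : Lr G t r + Lr Gᶜ t r = Lr Set.univ t r := by
  classical
  obtain ⟨W, hW⟩ : ∃ W : Finset ℕ, W = (range ⌈Real.exp ((1 + r) * t)⌉₊).filter
    (fun n : ℕ => Real.exp t ≤ n) := ⟨_, rfl⟩
  have hLr : ∀ S : Set ℕ, Lr S t r = ∑ n ∈ W, if n ∈ S then (1 : ℝ) / n else 0 := by
    intro S
    unfold Lr
    rw [← sum_filter, hW, filter_filter]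
    apply sum_congr _ fun _ _ => rfl
    ext n
    simp only [mem_filter]
    tauto
  rw [hLr, hLr, hLr, ← sum_add_distrib]
  refine sum_congr rfl fun n _ => ?_
  by_cases h : n ∈ G
  · simp [h]
  · simp [h]

end Pool.Agent.Work.MP_215640_nt
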