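import Pool.Agent.Work.MP_215640_nt.R.DefsR

/-!
MODULE DENSW. From the windows to the logarithmic density.

Let `X = log x`, `u t = Lr G t 3/t → D`. For fixed `I` the numbers `n ≤ x` split into the windows
`[e^(X/4^(i+1)), e^(X/4^i))`, `i < I`, the numbers `1 ≤ n < e^(X/4^I)`, and `n = x` (compare `fn_windows` in
`U/Final.lean`, which is the lower bound). So
`∑_{i<I} Lr G (X/4^(i+1)) 3 ≤ ∑_{n ≤ x, n ∈ G} 1/n ≤ ∑_{i<I} Lr G (X/4^(i+1)) 3 + (X/4^I + 1) + 1`
(`harmonic_upper` with `a = 1`). Divide by `X`: `Lr G (X/4^(i+1)) 3/X = u (X/4^(i+1))/4^(i+1) → D/4^(i+1)`, and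
`∑_{i<I} 1/4^(i+1) = (1 - 4^(-I))/3`. Given `ε > 0` choose `I` with `(|D| + 1)/4^I ≤ ε/4`, then `x` large.
-/

set_option autoImplicit false

namespace Pool.Agent.Work.MP_215640_nt

open Finset Polynomial Filter

open Classical in
private theorem dw_windows (G : Set ℕ) (x : ℕ) (hx : 1 ≤ x) (I : ℕ) :
    ∑ i ∈ range I, Lr G (Real.log x / 4 ^ (i + 1)) 3 =
      ∑ n ∈ (range x).filter (fun n : ℕ => n ∈ G ∧ Real.exp (Real.log x / 4 ^ I) ≤ n),
        (1 : ℝ) / n := by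
  have hx0 : (0 : ℝ) < x := by exact_mod_cast hx
  obtain ⟨X, hX⟩ : ∃ X : ℝ, X = Real.log x := ⟨_, rfl⟩
  have hX0 : 0 ≤ X := by
    rw [hX]; exact Real.log_nonneg (by exact_mod_cast hx)
  have hexpX : Real.exp X = x := by rw [hX, Real.exp_log hx0]
  rw [← hX]
  induction I with
  | zero =>
    rw [range_zero, sum_empty]
    symm
    apply sum_eq_zero
    intro n hn
    exfalso
    rw [mem_filter, mem_range, pow_zero, div_one, hexpX] at hn
    have h1 : x ≤ n := by exact_mod_cast hn.2.2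
    omega
  | succ I ih =>
    rw [sum_range_succ]
    have h4 : (1 + 3) * (X / 4 ^ (I + 1)) = X / 4 ^ I := by
      rw [pow_succ]; field_simp; ring
    have hle : X / 4 ^ (I + 1) ≤ X / 4 ^ I := by
      rw [← h4]
      have : 0 ≤ X / 4 ^ (I + 1) := by positivity
      linarith
    have hle2 : X / 4 ^ I ≤ X := div_le_self hX0 (one_le_pow₀ (by norm_num))
    have hdisj : Disjoint
        ((range x).filter (fun n : ℕ => n ∈ G ∧ Real.exp (X / 4 ^ I) ≤ n))
        ((range ⌈Real.exp ((1 + 3) * (X / 4 ^ (I + 1)))⌉₊).filter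
          (fun n : ℕ => n ∈ G ∧ Real.exp (X / 4 ^ (I + 1)) ≤ n)) := by
      rw [disjoint_left]
      intro n h1 h2
      rw [mem_filter] at h1 h2
      rw [mem_range, Nat.lt_ceil, h4] at h2
      linarith [h1.2.2, h2.1]
    rw [ih]
    unfold Lr
    rw [← sum_union hdisj]
    apply sum_congr _ fun _ _ => rfl
    ext n
    rw [mem_union, mem_filter, mem_filter, mem_filter, mem_range, mem_range, Nat.lt_ceil, h4]
    constructor
    · rintro (⟨h1, h2, h3⟩ | ⟨h1, h2, h3⟩)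
      · exact ⟨h1, h2, (Real.exp_le_exp.2 hle).trans h3⟩
      · refine ⟨?_, h2, h3⟩
        have h5 : (n : ℝ) < x := by
          rw [← hexpX]
          exact h1.trans_le (Real.exp_le_exp.2 hle2)
        exact_mod_cast h5
    · rintro ⟨h1, h2, h3⟩
      rcases le_or_gt (Real.exp (X / 4 ^ I)) (n : ℝ) with h5 | h5
      · exact Or.inl ⟨h1, h2, h5⟩
      · exact Or.inr ⟨h5, h2, h3⟩

open Classical in
private theorem dw_bounds (G : Set ℕ) (x : ℕ) (hx : 1 ≤ x) (I : ℕ) :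
    ∑ i ∈ range I, Lr G (Real.log x / 4 ^ (i + 1)) 3 ≤
        ∑ n ∈ (Icc 1 x).filter (fun n => n ∈ G), (1 : ℝ) / n ∧
      ∑ n ∈ (Icc 1 x).filter (fun n => n ∈ G), (1 : ℝ) / n ≤
        ∑ i ∈ range I, Lr G (Real.log x / 4 ^ (i + 1)) 3 + (Real.log x / 4 ^ I + 1) + 1 := by
  have hx0 : (0 : ℝ) < x := by exact_mod_cast hx
  have hX0 : 0 ≤ Real.log x := Real.log_nonneg (by exact_mod_cast hx)
  rw [dw_windows G x hx I]
  have hE1 : 1 ≤ Real.exp (Real.log x / 4 ^ I) := Real.one_le_exp (by positivity)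
  constructor
  · apply sum_le_sum_of_subset_of_nonneg
    · intro n hn
      rw [mem_filter, mem_range] at hn
      rw [mem_filter, mem_Icc]
      refine ⟨⟨?_, hn.1.le⟩, hn.2.1⟩
      have h1 : (1 : ℝ) ≤ n := hE1.trans hn.2.2
      exact_mod_cast h1
    · intro n _ _
      positivity
  · obtain ⟨A, hA⟩ : ∃ A : Finset ℕ, A = (range x).filter
      (fun n : ℕ => n ∈ G ∧ Real.exp (Real.log x / 4 ^ I) ≤ n) := ⟨_, rfl⟩
    obtain ⟨B, hB⟩ : ∃ B : Finset ℕ, B = (Icc 1 x).filter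
      (fun n : ℕ => (n : ℝ) < Real.exp (Real.log x / 4 ^ I)) := ⟨_, rfl⟩
    rw [← hA]
    have hsub : (Icc 1 x).filter (fun n => n ∈ G) ⊆ (A ∪ B) ∪ {x} := by
      intro n hn
      rw [mem_filter, mem_Icc] at hn
      rw [mem_union, mem_union, mem_singleton, hA, hB, mem_filter, mem_filter, mem_range, mem_Icc]
      obtain ⟨⟨h1, h2⟩, h3⟩ := hn
      rcases Nat.eq_or_lt_of_le h2 with h4 | h4
      · exact Or.inr h4
      · left
        rcases le_or_gt (Real.exp (Real.log x / 4 ^ I)) (n : ℝ) with h5 | h5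
        · exact Or.inl ⟨h4, h3, h5⟩
        · exact Or.inr ⟨⟨h1, h2⟩, h5⟩
    have hun : ∀ S T : Finset ℕ, ∑ n ∈ S ∪ T, (1 : ℝ) / n ≤
        ∑ n ∈ S, (1 : ℝ) / n + ∑ n ∈ T, (1 : ℝ) / n := by
      intro S T
      rw [← sum_union_inter]
      have : 0 ≤ ∑ n ∈ S ∩ T, (1 : ℝ) / n := sum_nonneg fun n _ => by positivity
      linarith
    have h1 := sum_le_sum_of_subset_of_nonneg (f := fun n : ℕ => (1 : ℝ) / n) hsub
      fun n _ _ => by positivity
    have h2 := hun (A ∪ B) {x}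
    have h3 := hun A B
    rw [sum_singleton] at h2
    have h4 : (1 : ℝ) / x ≤ 1 := by
      rw [div_le_one hx0]
      exact_mod_cast hx
    have h5 := harmonic_upper 1 (Real.exp (Real.log x / 4 ^ I)) one_pos hE1 B (by
      intro n hn
      rw [hB, mem_filter, mem_Icc] at hn
      exact ⟨by exact_mod_cast hn.1.1, hn.2⟩)
    rw [Real.log_exp, Real.log_one] at h5
    have h6 : (∑ n ∈ (Icc 1 x).filter (fun n => n ∈ G), (1 : ℝ) / n) ≤
      ∑ n ∈ (A ∪ B) ∪ {x}, (1 : ℝ) / n := h1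
    linarith

open Classical in
theorem dens_of_window (G : Set ℕ) (D : ℝ)
    (h : Tendsto (fun t : ℝ => Lr G t 3 / t) atTop (nhds D)) :
    Tendsto (fun x : ℕ => (∑ n ∈ (Icc 1 x).filter (fun n => n ∈ G), (1 : ℝ) / n) / Real.log x)
      atTop (nhds (D / 3)) := by
  have hlogx : Tendsto (fun x : ℕ => Real.log (x : ℝ)) atTop atTop :=
    Real.tendsto_log_atTop.comp tendsto_natCast_atTop_atTop
  -- the main term
  have hmain : ∀ I : ℕ, Tendsto (fun x : ℕ =>
      (∑ i ∈ range I, Lr G (Real.log x / 4 ^ (i + 1)) 3) / Real.log x) atTop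
      (nhds (∑ i ∈ range I, D * (1 / 4 ^ (i + 1)))) := by
    intro I
    simp_rw [sum_div]
    apply tendsto_finsetSum
    intro i _
    have h1 : Tendsto (fun x : ℕ => Real.log (x : ℝ) / 4 ^ (i + 1)) atTop atTop :=
      hlogx.atTop_div_const (by positivity)
    have h2 := (h.comp h1).mul_const (1 / 4 ^ (i + 1) : ℝ)
    refine h2.congr' ?_
    filter_upwards [hlogx.eventually_gt_atTop 0] with x hx
    simp only [Function.comp_apply]
    field_simp
  have hgeo : ∀ I : ℕ, ∑ i ∈ range I, D * (1 / 4 ^ (i + 1)) = D / 3 - D / 3 * (1 / 4) ^ I := by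
    intro I
    induction I with
    | zero => simp
    | succ I ih =>
      rw [sum_range_succ, ih, one_div_pow, one_div_pow, pow_succ]
      field_simp
      ring
  rw [Metric.tendsto_nhds]
  intro ε hε
  obtain ⟨I, hI⟩ : ∃ I : ℕ, (1 / 4 : ℝ) ^ I < ε / 4 / (|D| + 1) :=
    exists_pow_lt_of_lt_one (by positivity) (by norm_num)
  have hI0 : (0 : ℝ) < (1 / 4) ^ I := by positivity
  have hD0 : 0 ≤ |D| := abs_nonneg D
  rw [lt_div_iff₀ (by positivity)] at hI
  have hm := hmain I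
  rw [hgeo, Metric.tendsto_nhds] at hm
  filter_upwards [hm (ε / 4) (by positivity), hlogx.eventually_gt_atTop 0,
    hlogx.eventually_gt_atTop (8 / ε), eventually_ge_atTop 1] with x h1 h2 h3 h4
  obtain ⟨hb1, hb2⟩ := dw_bounds G x h4 I
  obtain ⟨S, hS⟩ : ∃ S : ℝ, S = ∑ i ∈ range I, Lr G (Real.log x / 4 ^ (i + 1)) 3 := ⟨_, rfl⟩
  obtain ⟨T, hT⟩ : ∃ T : ℝ, T = ∑ n ∈ (Icc 1 x).filter (fun n => n ∈ G), (1 : ℝ) / n := ⟨_, rfl⟩
  rw [← hS, ← hT] at hb1 hb2
  rw [← hS] at h1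
  rw [← hT]
  have h5 : S / Real.log x ≤ T / Real.log x := div_le_div_of_nonneg_right hb1 h2.le
  have h6 : T / Real.log x ≤ S / Real.log x + (1 / 4) ^ I + 2 / Real.log x := by
    have e1 : S / Real.log x + (1 / 4) ^ I + 2 / Real.log x =
        (S + (Real.log x / 4 ^ I + 1) + 1) / Real.log x := by
      rw [one_div_pow]
      field_simp
      ring
    rw [e1]
    exact div_le_div_of_nonneg_right hb2 h2.le
  have h7 : 2 / Real.log x < ε / 4 := by
    rw [div_lt_iff₀ h2]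
    rw [div_lt_iff₀ hε] at h3
    linarith
  have h8 : |D / 3 * (1 / 4) ^ I| ≤ |D| * (1 / 4) ^ I := by
    rw [abs_mul, abs_of_pos hI0, abs_div]
    apply mul_le_mul_of_nonneg_right _ hI0.le
    rw [abs_of_pos (show (0 : ℝ) < 3 by norm_num)]
    linarith
  have h9 := abs_le.1 h8
  rw [Real.dist_eq, abs_lt] at h1 ⊢
  have h10 : |D| * (1 / 4) ^ I + (1 / 4) ^ I < ε / 4 := by nlinarith
  have h11 : 0 ≤ |D| * (1 / 4) ^ I := by positivity
  constructor <;> linarith [h1.1, h1.2, h9.1, h9.2]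

end Pool.Agent.Work.MP_215640_nt
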