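import Pool.Agent.Work.MP_215640_nt.R.KChoiceB

/-!
MODULE GROWB. `U/Grow.lean` with an exponent `β ∈ (0, 1)` instead of `1/2` and with the inequality only for
`t ≥ t0`.

The same proof. Changes: `exists_KB (c + 1) β` gives `K2 c K ≤ K2 (c+1) K ≤ t^(1-β)`, so
`exp(-t/K2 c K) ≤ exp(-t^β) = exp(-t^β/2) exp(-t^β/2) ≤ b · 1/(log t)^2` (`t ≥ t0`, and
`exp(-t^β/2) ≤ 1/(log t)^2` eventually, `gr_exp` with `t^β`); the words have `2^p.1 ≤ 2^K ≤ t^(1-β) ≤ t`,
so `cc ≤ 1 - 1/t` (replace `1 - 1/sqrt t` by `1 - 1/t` and `1 - 1/sqrt T` by `1 - 1/T`). The induction only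
uses the inequality `hu` at `t ≥ t0` (`hstep` has `t0 < t`). The comparison `φ` is the same.
-/

set_option autoImplicit false

namespace Pool.Agent.Work.MP_215640_nt

open Finset Polynomial Filter

private theorem gb_diff (s h : ℝ) (hs : 1 ≤ s) (hh : 0 < h) (hh1 : h ≤ 9 / 10) :
    h / (2 * Real.sqrt s ^ 3) ≤ 1 / Real.sqrt (s - h) - 1 / Real.sqrt s := by
  set a := Real.sqrt (s - h) with ha
  set d := Real.sqrt s with hd
  have ha2 : a ^ 2 = s - h := Real.sq_sqrt (by linarith)
  have hd2 : d ^ 2 = s := Real.sq_sqrt (by linarith)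
  have ha0 : 0 < a := Real.sqrt_pos.2 (by linarith)
  have hd0 : 0 < d := Real.sqrt_pos.2 (by linarith)
  have had : a ≤ d := Real.sqrt_le_sqrt (by linarith)
  have h1 : h / (2 * d) ≤ d - a := by
    rw [div_le_iff₀ (by positivity)]
    nlinarith
  have h2 : (d - a) / d ^ 2 ≤ (d - a) / (a * d) := by
    apply div_le_div_of_nonneg_left (by linarith) (by positivity)
    nlinarith
  calc h / (2 * d ^ 3) = (h / (2 * d)) / d ^ 2 := by field_simp
    _ ≤ (d - a) / d ^ 2 := div_le_div_of_nonneg_right h1 (by positivity)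
    _ ≤ (d - a) / (a * d) := h2
    _ = 1 / a - 1 / d := by field_simp

private theorem gb_mem (K : ℕ) (hK : 1 ≤ K) : ((1, ∅) : ℕ × Finset ℕ) ∈ FP 1 K := by
  classical
  unfold FP
  rw [mem_filter, mem_product, mem_range, mem_powerset]
  refine ⟨⟨by simp; omega, by simp⟩, by simp, ?_, ?_⟩
  · simp only
    rw [show (1 : ℕ) = 0 + 1 from rfl, cc_succ, cc_zero]
    simp only [wd, ex]
    norm_num
  · intro l hl
    simp only at hl ⊢
    have : l = 0 := by omega
    rw [this, cc_zero]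

private theorem gb_half : cc (wd ∅) 1 = 1 / 2 := by
  have h := cc_succ (wd ∅) 0
  rw [cc_zero] at h
  simp only [wd, ex] at h
  simp only [Nat.zero_add] at h
  rw [h]
  norm_num

private theorem gb_exp (β : ℝ) (hβ0 : 0 < β) : ∀ᶠ t : ℝ in atTop,
    Real.exp (-(t ^ β / 2)) ≤ 1 / (Real.log t) ^ 2 := by
  have hy : Tendsto (fun t : ℝ => t ^ β / 2) atTop atTop :=
    (tendsto_rpow_atTop hβ0).atTop_div_const (by norm_num)
  have h1 := hy.eventually ((Real.isLittleO_pow_exp_atTop (n := 2)).bound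
    (show (0 : ℝ) < β ^ 2 / 4 by positivity))
  filter_upwards [h1, eventually_gt_atTop 1] with t ht ht1
  have h0 : 0 < Real.log t := Real.log_pos ht1
  have hs0 : 0 < t ^ β := Real.rpow_pos_of_pos (by linarith) _
  rw [Real.norm_eq_abs, Real.norm_eq_abs, abs_of_nonneg (sq_nonneg _),
    abs_of_pos (Real.exp_pos _)] at ht
  have h2 : β * Real.log t ≤ t ^ β := by
    have h3 := Real.log_le_sub_one_of_pos hs0
    rw [Real.log_rpow (by linarith)] at h3
    linarith
  have h4 : (β * Real.log t) ^ 2 ≤ (t ^ β) ^ 2 :=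
    pow_le_pow_left₀ (by positivity) h2 2
  have h5 : (Real.log t) ^ 2 ≤ Real.exp (t ^ β / 2) := by
    have h6 : β ^ 2 * (Real.log t) ^ 2 ≤ β ^ 2 * Real.exp (t ^ β / 2) := by nlinarith
    exact le_of_mul_le_mul_left h6 (by positivity)
  rw [Real.exp_neg, ← one_div]
  exact one_div_le_one_div_of_le (by positivity) h5

theorem growB (c : ℕ) (β : ℝ) (hβ0 : 0 < β) (hβ1 : β < 1) :
    ∀ᶠ t0 : ℝ in atTop, ∀ (b : ℝ) (u : ℝ → ℝ), Real.exp (-(t0 ^ β / 2)) ≤ b → b ≤ 3 →
      (∀ (K : ℕ) (t : ℝ), 1 ≤ K → t0 ≤ t → (K2 c K : ℝ) ≤ t →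
        ∑ p ∈ FP 1 K, (1 / 2) ^ p.1 * u (cc (wd p.2) p.1 * t) - Real.exp (-(t / K2 c K)) ≤ u t) →
      (∀ t, t0 / 2 ≤ t → t ≤ t0 → b ≤ u t) →
      ∀ t, t0 ≤ t → b * (1 - 2 / Real.sqrt (Real.log t0)) ≤ u t := by
  classical
  obtain ⟨T1, hT1⟩ := eventually_atTop.1 ((exists_KB (c + 1) β hβ0 hβ1).and (gb_exp β hβ0))
  filter_upwards [eventually_ge_atTop T1, Real.tendsto_log_atTop.eventually_ge_atTop 200,
    eventually_ge_atTop 1] with t0 hT hlog0 ht01
  intro b u hb _ hu hbase
  have hb0 : 0 < b := (Real.exp_pos _).trans_le hb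
  have hl2 : Real.log 2 < 0.6931471808 := Real.log_two_lt_d9
  have hl2' : 0.6931471803 < Real.log 2 := Real.log_two_gt_d9
  set S0 := Real.sqrt (Real.log t0) with hS0def
  have hS0 : 14 ≤ S0 := Real.le_sqrt_of_sq_le (by norm_num; linarith)
  have hS0sq : S0 ^ 2 = Real.log t0 := Real.sq_sqrt (by linarith)
  have hlogge : ∀ t, t0 / 2 ≤ t → Real.log t0 - Real.log 2 ≤ Real.log t := by
    intro t ht
    rw [← Real.log_div (by linarith) (by norm_num)]
    exact Real.log_le_log (by linarith) ht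
  have h2S0 : 2 / S0 ≤ 1 := by rw [div_le_one (by linarith)]; linarith
  have h2S0' : 0 < 2 / S0 := by positivity
  let φ : ℝ → ℝ := fun t => b * (1 - 2 / S0 + 1 / Real.sqrt (Real.log t))
  have hφ0 : ∀ t, 0 ≤ φ t := by
    intro t
    have : 0 ≤ 1 / Real.sqrt (Real.log t) := by positivity
    exact mul_nonneg hb0.le (by linarith)
  have hφb : ∀ t, t0 / 2 ≤ t → φ t ≤ b := by
    intro t ht
    have h1 := hlogge t ht
    have h2 : S0 / 2 ≤ Real.sqrt (Real.log t) := by
      apply Real.le_sqrt_of_sq_le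
      nlinarith
    have h3 : 1 / Real.sqrt (Real.log t) ≤ 2 / S0 := by
      rw [div_le_div_iff₀ (by linarith) (by linarith)]
      linarith
    have h4 : b * (1 - 2 / S0 + 1 / Real.sqrt (Real.log t)) ≤ b * 1 :=
      mul_le_mul_of_nonneg_left (by linarith) hb0.le
    rw [mul_one] at h4
    exact h4
  have hφmono : ∀ s t, t0 / 2 ≤ s → s ≤ t → φ t ≤ φ s := by
    intro s t hs hst
    have h1 := hlogge s hs
    have h2 : Real.log s ≤ Real.log t := Real.log_le_log (by linarith) hst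
    have h3 : 0 < Real.sqrt (Real.log s) := Real.sqrt_pos.2 (by linarith)
    have h4 : Real.sqrt (Real.log s) ≤ Real.sqrt (Real.log t) := Real.sqrt_le_sqrt h2
    have h5 := one_div_le_one_div_of_le h3 h4
    exact mul_le_mul_of_nonneg_left (by linarith) hb0.le
  have hstep : ∀ t, t0 < t → (∀ s, t0 / 2 ≤ s → s ≤ (1 - 1 / t) * t → φ s ≤ u s) →
      φ t ≤ u t := by
    intro t ht hind
    obtain ⟨⟨K, hK1, hK2, hK3⟩, hexp⟩ := hT1 t (by linarith)
    have ht1 : 1 < t := by linarith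
    have hst : 0 < t ^ (1 - β) := Real.rpow_pos_of_pos (by linarith) _
    have hstt : t ^ (1 - β) ≤ t := by
      have := Real.rpow_le_rpow_of_exponent_le ht1.le (show 1 - β ≤ 1 by linarith)
      rwa [Real.rpow_one] at this
    have hprod : t ^ β * t ^ (1 - β) = t := by
      rw [← Real.rpow_add (by linarith), add_sub_cancel, Real.rpow_one]
    have hK2c : (K2 c K : ℝ) ≤ t ^ (1 - β) := by
      have : K2 c K ≤ K2 (c + 1) K := K2_le (Nat.le_succ c) le_rfl
      have h : (K2 c K : ℝ) ≤ (K2 (c + 1) K : ℝ) := by exact_mod_cast this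
      exact h.trans hK2
    have hKpos : (0 : ℝ) < K2 c K := by exact_mod_cast K2_pos c K
    have h1 := hu K t hK1 ht.le (hK2c.trans hstt)
    have h2K : (2 : ℝ) ^ K ≤ t := by
      have h := two_pow_le_K2 (c := c + 1) (k := K) (a := 1) hK1 (by omega)
      rw [one_mul] at h
      have h' : ((2 ^ K : ℕ) : ℝ) ≤ (K2 (c + 1) K : ℝ) := by exact_mod_cast h
      push_cast at h'
      exact h'.trans (hK2.trans hstt)
    set s := Real.log t with hs
    have hs200 : 200 ≤ s := hlog0.trans (Real.log_le_log (by linarith) ht.le)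
    have hφt : t0 / 2 ≤ t := by linarith
    have hterm : ∀ p ∈ FP 1 K, (1 / 2 : ℝ) ^ p.1 * φ t +
        (if p = (1, ∅) then 1 / 2 * (φ (t / 2) - φ t) else 0) ≤
        (1 / 2 : ℝ) ^ p.1 * u (cc (wd p.2) p.1 * t) := by
      intro p hp
      obtain ⟨e1, e2, e3, e4, e5⟩ := fp_one hp
      have e6 := cc_le_of_lt_one (wd p.2) p.1 e5
      have e7 : 1 / t ≤ (1 / 2 : ℝ) ^ p.1 := by
        have e8 : (1 / 2 : ℝ) ^ K ≤ (1 / 2 : ℝ) ^ p.1 :=
          pow_le_pow_of_le_one (by norm_num) (by norm_num) e2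
        have e9 : 1 / t ≤ (1 / 2 : ℝ) ^ K := by
          rw [one_div_pow]
          exact one_div_le_one_div_of_le (by positivity) h2K
        linarith
      have e10 : t0 / 2 ≤ cc (wd p.2) p.1 * t := by nlinarith
      have e11 : φ (cc (wd p.2) p.1 * t) ≤ u (cc (wd p.2) p.1 * t) :=
        hind _ e10 (mul_le_mul_of_nonneg_right (by linarith) (by linarith))
      have e12 : φ t ≤ φ (cc (wd p.2) p.1 * t) := hφmono _ _ e10 (by nlinarith)
      have e13 : (0 : ℝ) < (1 / 2 : ℝ) ^ p.1 := by positivity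
      split_ifs with hp0
      · have e14 : cc (wd p.2) p.1 * t = t / 2 := by
          rw [hp0]
          show cc (wd ∅) 1 * t = t / 2
          rw [gb_half]; ring
        rw [e14] at e11 ⊢
        rw [hp0]
        simp only [pow_one]
        linarith
      · rw [add_zero]
        exact mul_le_mul_of_nonneg_left (e12.trans e11) e13.le
    have hsum := sum_le_sum hterm
    rw [sum_add_distrib, ← sum_mul, sum_ite_eq', if_pos (gb_mem K hK1)] at hsum
    have hmass := fp_mass 1 one_pos K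
    rw [Real.one_rpow, one_mul] at hmass
    have hmass' : 1 - 1 / s ^ 2 ≤ ∑ p ∈ FP 1 K, (1 / 2 : ℝ) ^ p.1 := by linarith
    have hm2 : (1 - 1 / s ^ 2) * φ t ≤ (∑ p ∈ FP 1 K, (1 / 2 : ℝ) ^ p.1) * φ t :=
      mul_le_mul_of_nonneg_right hmass' (hφ0 t)
    have hs2 : 0 < 1 / s ^ 2 := by positivity
    have hm3 : 1 / s ^ 2 * φ t ≤ 1 / s ^ 2 * b := mul_le_mul_of_nonneg_left (hφb t hφt) hs2.le
    have herr : Real.exp (-(t / K2 c K)) ≤ b * (1 / s ^ 2) := by
      have f1 : t ^ β ≤ t / K2 c K := by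
        rw [le_div_iff₀ hKpos]
        calc t ^ β * (K2 c K : ℝ) ≤ t ^ β * t ^ (1 - β) :=
              mul_le_mul_of_nonneg_left hK2c (Real.rpow_nonneg (by linarith) _)
          _ = t := hprod
      have f2 : Real.exp (-(t / K2 c K)) ≤ Real.exp (-(t ^ β / 2)) *
          Real.exp (-(t ^ β / 2)) := by
        rw [← Real.exp_add, Real.exp_le_exp]
        linarith
      have f3 : Real.exp (-(t ^ β / 2)) ≤ b := by
        refine le_trans ?_ hb
        rw [Real.exp_le_exp, neg_le_neg_iff]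
        exact div_le_div_of_nonneg_right (Real.rpow_le_rpow (by linarith) ht.le hβ0.le)
          (by norm_num)
      refine f2.trans (mul_le_mul f3 hexp (Real.exp_pos _).le hb0.le)
    have hD : b * (Real.log 2 / (2 * Real.sqrt s ^ 3)) ≤ φ (t / 2) - φ t := by
      have g1 := gb_diff s (Real.log 2) (by linarith) (by linarith) (by linarith)
      have g2 : Real.log (t / 2) = s - Real.log 2 := Real.log_div (by linarith) (by norm_num)
      have g3 : φ (t / 2) - φ t = b * (1 / Real.sqrt (s - Real.log 2) - 1 / Real.sqrt s) := by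
        show b * (1 - 2 / S0 + 1 / Real.sqrt (Real.log (t / 2))) -
          b * (1 - 2 / S0 + 1 / Real.sqrt (Real.log t)) = _
        rw [g2]; ring
      rw [g3]
      exact mul_le_mul_of_nonneg_left g1 hb0.le
    have hD2 : 4 / s ^ 2 ≤ Real.log 2 / (2 * Real.sqrt s ^ 3) := by
      have g1 : 14 ≤ Real.sqrt s := Real.le_sqrt_of_sq_le (by norm_num; linarith)
      have g2 : Real.sqrt s ^ 2 = s := Real.sq_sqrt (by linarith)
      set d := Real.sqrt s with hd
      have g3 : s ^ 2 = d ^ 3 * d := by rw [← g2]; ring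
      have hd3 : 0 < d ^ 3 := by positivity
      rw [g3, div_le_div_iff₀ (by positivity) (by positivity)]
      have g4 : 8 ≤ Real.log 2 * d := by nlinarith
      nlinarith [mul_le_mul_of_nonneg_left g4 hd3.le]
    have hD3 : b * (4 / s ^ 2) ≤ b * (Real.log 2 / (2 * Real.sqrt s ^ 3)) :=
      mul_le_mul_of_nonneg_left hD2 hb0.le
    have hD4 : b * (4 / s ^ 2) = 4 * (b * (1 / s ^ 2)) := by ring
    have hm4 : 1 / s ^ 2 * b = b * (1 / s ^ 2) := mul_comm _ _
    have hm5 : (1 - 1 / s ^ 2) * φ t = φ t - 1 / s ^ 2 * φ t := by ring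
    linarith
  have hmain : ∀ T, t0 ≤ T → ∀ m : ℕ, ∀ t, t0 / 2 ≤ t → t ≤ T →
      t * (1 - 1 / T) ^ m ≤ t0 → φ t ≤ u t := by
    intro T hTT m
    have hsT : 0 < T := by linarith
    have hsT1 : 1 ≤ T := by linarith
    have hr0 : 0 ≤ 1 - 1 / T := by
      have : 1 / T ≤ 1 := by rw [div_le_one hsT]; exact hsT1
      linarith
    induction m with
    | zero =>
      intro t h1 h2 h3
      rw [pow_zero, mul_one] at h3
      exact (hφb t h1).trans (hbase t h1 h3)
    | succ m ih =>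
      intro t h1 h2 h3
      rcases le_or_gt t t0 with h4 | h4
      · exact (hφb t h1).trans (hbase t h1 h4)
      · refine hstep t h4 fun s hs1 hs2 => ?_
        have hst : 0 < t := by linarith
        have h5 : 1 / T ≤ 1 / t :=
          one_div_le_one_div_of_le hst h2
        have h6 : s ≤ (1 - 1 / T) * t :=
          hs2.trans (mul_le_mul_of_nonneg_right (by linarith) (by linarith))
        refine ih s hs1 ?_ ?_
        · have : 0 < 1 / T := by positivity
          nlinarith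
        · calc s * (1 - 1 / T) ^ m
              ≤ ((1 - 1 / T) * t) * (1 - 1 / T) ^ m :=
                mul_le_mul_of_nonneg_right h6 (pow_nonneg hr0 m)
            _ = t * (1 - 1 / T) ^ (m + 1) := by ring
            _ ≤ t0 := h3
  intro t ht
  have hst : 0 < t := by linarith
  have hst1 : 1 ≤ t := by linarith
  have hr0 : 0 ≤ 1 - 1 / t := by
    have : 1 / t ≤ 1 := by rw [div_le_one hst]; exact hst1
    linarith
  have hr1 : 1 - 1 / t < 1 := by
    have : 0 < 1 / t := by positivity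
    linarith
  obtain ⟨m, hm⟩ := exists_pow_lt_of_lt_one
    (show (0 : ℝ) < t0 / t from div_pos (by linarith) (by linarith)) hr1
  have h1 : t * (1 - 1 / t) ^ m ≤ t0 := by
    rw [lt_div_iff₀ (by linarith)] at hm
    linarith
  have h2 := hmain t ht m t (by linarith) le_rfl h1
  refine le_trans ?_ h2
  have h3 : 0 ≤ 1 / Real.sqrt (Real.log t) := by positivity
  exact mul_le_mul_of_nonneg_left (by linarith) hb0.le

end Pool.Agent.Work.MP_215640_nt
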