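import Mathlib

/-!
MODULE SEMIR. The numbers `a log 2 + b log (4/3)`, `a, b ∈ ℕ`, are eventually `η`-dense.

Let `α = log 2`, `β = log (4/3)`. `β/α` is irrational (`p α = q β` with `q ≥ 1` means
`2^p 3^q = 4^q`, impossible modulo 3). By Dirichlet (`Real.exists_int_int_abs_mul_sub_le`, or
`Real.exists_nat_abs_mul_sub_round_le`) there are `1 ≤ k` and `j ≥ 0` with `|k β - j α| ≤ η` and
`d = k β - j α ≠ 0`. For `s ≥ L`: if `d > 0` take `q = ⌊s/α⌋`, `i = ⌊(s - q α)/d⌋ ≤ α/d`, and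
`q α + i d = (q - i j) α + i k β` is within `d` of `s` (`q ≥ i j` for `L` large); if `d < 0` go down from
`(q + 1) α` in the same way. The number of steps is bounded for `s ≤ L + 1`.
-/

set_option autoImplicit false

namespace Pool.Agent.Work.MP_215640_nt

open Finset Filter

private theorem semi_ne (k j : ℕ) (hk : 0 < k) :
    (k : ℝ) * Real.log (4 / 3) - j * Real.log 2 ≠ 0 := by
  intro h
  have h1 : Real.log ((4 / 3 : ℝ) ^ k) = Real.log ((2 : ℝ) ^ j) := by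
    rw [Real.log_pow, Real.log_pow]; linarith
  have h2 : (4 / 3 : ℝ) ^ k = 2 ^ j :=
    Real.log_injOn_pos (Set.mem_Ioi.2 (by positivity)) (Set.mem_Ioi.2 (by positivity)) h1
  have h3 : (4 : ℝ) ^ k = 2 ^ j * 3 ^ k := by
    rw [div_pow, div_eq_iff (by positivity)] at h2
    exact h2
  have h4 : 4 ^ k = 2 ^ j * 3 ^ k := by exact_mod_cast h3
  have h5 : 3 ∣ 4 ^ k := by
    rw [h4]
    exact Dvd.dvd.mul_left (dvd_pow_self 3 hk.ne') _
  have h6 : 3 ∣ 4 := Nat.Prime.dvd_of_dvd_pow Nat.prime_three h5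
  omega

/-- Dirichlet -/
private theorem semi_dir (η : ℝ) (hη : 0 < η) : ∃ k j : ℕ, 0 < k ∧
    |(k : ℝ) * Real.log (4 / 3) - j * Real.log 2| ≤ η := by
  have hα : 0 < Real.log 2 := Real.log_pos (by norm_num)
  have hβ : 0 < Real.log (4 / 3) := Real.log_pos (by norm_num)
  obtain ⟨n, hn⟩ := exists_nat_gt (Real.log 2 / η)
  obtain ⟨j, k, hk, -, h⟩ := Real.exists_int_int_abs_mul_sub_le (Real.log (4 / 3) / Real.log 2)
    (n := n + 1) (Nat.succ_pos n)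
  have hk1 : (1 : ℝ) ≤ k := by exact_mod_cast hk
  have hj : 0 ≤ j := by
    by_contra hc
    push Not at hc
    have h1 : (j : ℝ) ≤ -1 := by exact_mod_cast (by omega : j ≤ -1)
    have h2 : 0 < (k : ℝ) * (Real.log (4 / 3) / Real.log 2) := by positivity
    have h3 := (abs_le.1 h).2
    have h4 : (1 : ℝ) / (((n + 1 : ℕ) : ℝ) + 1) < 1 := by
      rw [div_lt_one (by positivity)]
      push_cast
      have : (0 : ℝ) ≤ n := by positivity
      linarith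
    linarith
  refine ⟨k.toNat, j.toNat, by omega, ?_⟩
  have e1 : ((k.toNat : ℕ) : ℝ) = k := by exact_mod_cast Int.toNat_of_nonneg hk.le
  have e2 : ((j.toNat : ℕ) : ℝ) = j := by exact_mod_cast Int.toNat_of_nonneg hj
  rw [e1, e2]
  have e3 : (k : ℝ) * Real.log (4 / 3) - j * Real.log 2 =
      ((k : ℝ) * (Real.log (4 / 3) / Real.log 2) - j) * Real.log 2 := by
    field_simp
  rw [e3, abs_mul, abs_of_pos hα]
  calc |(k : ℝ) * (Real.log (4 / 3) / Real.log 2) - j| * Real.log 2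
      ≤ 1 / (((n + 1 : ℕ) : ℝ) + 1) * Real.log 2 := mul_le_mul_of_nonneg_right h hα.le
    _ ≤ η := by
        rw [one_div_mul_eq_div, div_le_iff₀ (by positivity)]
        rw [div_lt_iff₀ hη] at hn
        push_cast
        nlinarith

/-- one step: `q α + i d` close to `s` -/
private theorem semi_step (α d s : ℝ) (hα : 0 < α) (hd : d ≠ 0) (hs : 0 ≤ s) :
    ∃ q i : ℕ, |q * α + i * d - s| ≤ |d| ∧ s ≤ (q + 1) * α ∧ q * α ≤ s + α ∧ i * |d| ≤ α := by
  have hfl := Nat.floor_le (show 0 ≤ s / α by positivity)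
  have hfu := Nat.lt_floor_add_one (s / α)
  rw [le_div_iff₀ hα] at hfl
  rw [div_lt_iff₀ hα] at hfu
  rcases lt_or_gt_of_ne hd with h | h
  · -- go down from `(q + 1) α`
    have hd' : 0 < -d := by linarith
    have hr : 0 ≤ ((⌊s / α⌋₊ : ℝ) + 1) * α - s := by linarith
    have h1 := Nat.floor_le (show 0 ≤ (((⌊s / α⌋₊ : ℝ) + 1) * α - s) / (-d) by positivity)
    have h2 := Nat.lt_floor_add_one ((((⌊s / α⌋₊ : ℝ) + 1) * α - s) / (-d))
    rw [le_div_iff₀ hd'] at h1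
    rw [div_lt_iff₀ hd'] at h2
    refine ⟨⌊s / α⌋₊ + 1, ⌊(((⌊s / α⌋₊ : ℝ) + 1) * α - s) / (-d)⌋₊, ?_, ?_, ?_, ?_⟩
    · rw [abs_of_neg h, abs_le]
      push_cast
      constructor
      · nlinarith
      · nlinarith
    · push_cast; nlinarith
    · push_cast; nlinarith
    · rw [abs_of_neg h]
      nlinarith
  · have hr : 0 ≤ s - (⌊s / α⌋₊ : ℝ) * α := by linarith
    have h1 := Nat.floor_le (show 0 ≤ (s - (⌊s / α⌋₊ : ℝ) * α) / d by positivity)
    have h2 := Nat.lt_floor_add_one ((s - (⌊s / α⌋₊ : ℝ) * α) / d)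
    rw [le_div_iff₀ h] at h1
    rw [div_lt_iff₀ h] at h2
    refine ⟨⌊s / α⌋₊, ⌊(s - (⌊s / α⌋₊ : ℝ) * α) / d⌋₊, ?_, ?_, ?_, ?_⟩
    · rw [abs_of_pos h, abs_le]
      constructor
      · nlinarith
      · nlinarith
    · linarith
    · linarith
    · rw [abs_of_pos h]
      nlinarith

theorem semi_dense (η : ℝ) (hη : 0 < η) :
    ∃ (j : ℕ) (L : ℝ), 0 ≤ L ∧ ∀ s, L ≤ s → s ≤ L + 1 → ∃ a b : ℕ, a + b ≤ j ∧
      |a * Real.log 2 + b * Real.log (4 / 3) - s| ≤ η := by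
  have hα : 0 < Real.log 2 := Real.log_pos (by norm_num)
  obtain ⟨k, j, hk, hkj⟩ := semi_dir η hη
  have hne := semi_ne k j hk
  obtain ⟨d, hd⟩ : ∃ d : ℝ, d = (k : ℝ) * Real.log (4 / 3) - j * Real.log 2 := ⟨_, rfl⟩
  rw [← hd] at hkj hne
  obtain ⟨α, hαd⟩ : ∃ α : ℝ, α = Real.log 2 := ⟨_, rfl⟩
  rw [← hαd] at hα hd ⊢
  have hd0 : 0 < |d| := abs_pos.2 hne
  obtain ⟨I, hI⟩ : ∃ I : ℕ, α / |d| ≤ I := ⟨⌈α / |d|⌉₊, Nat.le_ceil _⟩
  obtain ⟨L, hL⟩ : ∃ L : ℝ, L = α * ((I * j : ℕ) + 1) := ⟨_, rfl⟩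
  obtain ⟨M, hM⟩ : ∃ M : ℕ, (L + 1) / α + 1 ≤ M := ⟨⌈(L + 1) / α + 1⌉₊, Nat.le_ceil _⟩
  have hL0 : 0 ≤ L := by rw [hL]; positivity
  refine ⟨M + I * k, L, hL0, fun s hs1 hs2 => ?_⟩
  obtain ⟨q, i, h1, h2, h3, h4⟩ := semi_step α d s hα hne (hL0.trans hs1)
  have hiI : i ≤ I := by
    have h5 : (i : ℝ) ≤ α / |d| := by rw [le_div_iff₀ hd0]; exact h4
    exact_mod_cast h5.trans hI
  have hq : I * j ≤ q := by
    have h5 : α * ((I * j : ℕ) + 1) ≤ (q + 1) * α := by rw [← hL]; exact hs1.trans h2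
    have h6 : ((I * j : ℕ) : ℝ) + 1 ≤ q + 1 := by
      rw [mul_comm] at h5
      exact le_of_mul_le_mul_right h5 hα
    have h7 : ((I * j : ℕ) : ℝ) ≤ q := by linarith
    exact_mod_cast h7
  have hij : i * j ≤ q := (Nat.mul_le_mul_right _ hiI).trans hq
  have hqM : q ≤ M := by
    have h5 : (q : ℝ) * α ≤ ((L + 1) / α + 1) * α := by
      rw [add_mul, div_mul_cancel₀ _ hα.ne', one_mul]
      linarith
    have h6 : (q : ℝ) ≤ (L + 1) / α + 1 := le_of_mul_le_mul_right h5 hα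
    exact_mod_cast h6.trans hM
  refine ⟨q - i * j, i * k, ?_, ?_⟩
  · have := Nat.mul_le_mul_right k hiI
    omega
  · have e1 : (((q - i * j : ℕ)) : ℝ) * α + ((i * k : ℕ) : ℝ) * Real.log (4 / 3) - s =
        q * α + i * d - s := by
      rw [Nat.cast_sub hij, hd]
      push_cast
      ring
    rw [e1]
    exact h1.trans hkj

end Pool.Agent.Work.MP_215640_nt
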