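import Pool.Agent.Work.MP_215640_nt.R.NearMax
import Pool.Agent.Work.MP_215640_nt.R.GrowB
import Pool.Agent.Work.MP_215640_nt.R.SemiR

/-!
MODULE LIMITR. A function with `Renewal c u` has a limit.

Let `M = sInf {y | ∀ᶠ t, u t ≤ y}` (the limes superior): `0 ≤ M ≤ 3`, for every `δ > 0` eventually
`u t ≤ M + δ`, and `u t > M - δ` for arbitrarily large `t`. Claim: for every `ε > 0` eventually
`u t ≥ M - ε` (so `u → M`). If `ε ≥ M` this is `nonneg`. Let `0 < ε < M`, `b = M - ε/2 ∈ (0, 3]`. `growB`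
(`β = 1/2`) and `h.lower`: for all large `t0`, if `b ≤ u` on `[t0/2, t0]` then
`u t ≥ b (1 - 2/sqrt(log t0)) ≥ b - 6/sqrt(log t0) ≥ M - ε` for all `t ≥ t0` (and `exp(-t0^β/2) ≤ b` for
large `t0`). So it suffices to find arbitrarily large `t0` with `u ≥ b` on `[t0/2, t0]`. Choose `η > 0` with
`9 (e^η - 1) ≤ ε/8` (and `η ≤ 1`), `(j, L)` from `semi_dense η`, `δ = ε/(8 · 11^j)`, `T1` with `u ≤ M + δ` on
`[T1, ∞)`, `T` from `near_iter`, and a large `t*` with `u t* ≥ M - δ`, `t* ≥ T 2^(j+1)`; `t0 = t* e^(-L)`.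
For `t ∈ [t0/2, t0]` put `s = log (t*/t) ∈ [L, L + log 2] ⊆ [L, L + 1]`, `(a, b)` from `semi_dense`; the
point `q = (1/2)^a (3/4)^b t*` has `|log q - log t| ≤ η`, so by `h.lip`
`|u t - u q| ≤ 9 (e^η - 1) + 2 exp(-min t q) ≤ ε/8 + ε/8` (`t, q` large), and `u q ≥ M - 11^j δ = M - ε/8`.
-/

set_option autoImplicit false

namespace Pool.Agent.Work.MP_215640_nt

open Finset Polynomial Filter

private theorem lm_lip {u : ℝ → ℝ}
    (hlip : ∀ t t', 1 ≤ t → t ≤ t' → |u t' - u t| ≤ 9 * ((t' - t) / t) + 2 * Real.exp (-t))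
    (x y η m : ℝ) (hm : 1 ≤ m) (hx : m ≤ x) (hy : m ≤ y) (hη : |Real.log x - Real.log y| ≤ η) :
    |u x - u y| ≤ 9 * (Real.exp η - 1) + 2 * Real.exp (-m) := by
  have key : ∀ x y : ℝ, m ≤ x → x ≤ y → Real.log y - Real.log x ≤ η →
      |u y - u x| ≤ 9 * (Real.exp η - 1) + 2 * Real.exp (-m) := by
    intro x y hx hxy h
    have hx0 : 0 < x := by linarith
    have hy0 : 0 < y := by linarith
    have h1 := hlip x y (by linarith) hxy
    have h2 : (y - x) / x ≤ Real.exp η - 1 := by
      have h3 : (y - x) / x = y / x - 1 := by field_simp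
      have h4 : y / x ≤ Real.exp η := by
        rw [← Real.log_le_iff_le_exp (by positivity), Real.log_div hy0.ne' hx0.ne']
        exact h
      linarith
    have h3 : Real.exp (-x) ≤ Real.exp (-m) := Real.exp_le_exp.2 (by linarith)
    linarith
  rcases le_total x y with h | h
  · rw [abs_sub_comm]
    exact key x y hx h (by linarith [(abs_le.1 hη).1])
  · exact key y x hy h (by linarith [(abs_le.1 hη).2])

theorem limit_of (c : ℕ) (u : ℝ → ℝ) (h : Renewal c u) : ∃ D : ℝ, Tendsto u atTop (nhds D) := by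
  obtain ⟨S, hS⟩ : ∃ S : Set ℝ, S = {y | ∀ᶠ t in atTop, u t ≤ y} := ⟨_, rfl⟩
  have hmem : ∀ δ : ℝ, 0 < δ → 3 + δ ∈ S := by
    intro δ hδ
    rw [hS, Set.mem_setOf_eq]
    have h1 : Tendsto (fun t : ℝ => Real.exp (-t)) atTop (nhds 0) :=
      Real.tendsto_exp_neg_atTop_nhds_zero
    filter_upwards [h1.eventually (gt_mem_nhds hδ), eventually_ge_atTop 1] with t ht ht1
    have h2 := h.le_three t ht1
    linarith
  have hlow : ∀ y ∈ S, 0 ≤ y := by
    intro y hy
    rw [hS, Set.mem_setOf_eq] at hy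
    obtain ⟨t, ht1, ht2⟩ := (hy.and (eventually_gt_atTop 0)).exists
    exact (h.nonneg t ht2).trans ht1
  have hne : S.Nonempty := ⟨3 + 1, hmem 1 one_pos⟩
  have hbdd : BddBelow S := ⟨0, fun y hy => hlow y hy⟩
  obtain ⟨M, hM⟩ : ∃ M : ℝ, M = sInf S := ⟨_, rfl⟩
  have hM0 : 0 ≤ M := by rw [hM]; exact le_csInf hne hlow
  have hM3 : M ≤ 3 := by
    apply le_of_forall_pos_le_add
    intro δ hδ
    rw [hM]
    exact csInf_le hbdd (hmem δ hδ)
  have hup : ∀ δ : ℝ, 0 < δ → ∀ᶠ t in atTop, u t ≤ M + δ := by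
    intro δ hδ
    obtain ⟨y, hy1, hy2⟩ := exists_lt_of_csInf_lt hne (show sInf S < M + δ by rw [← hM]; linarith)
    rw [hS, Set.mem_setOf_eq] at hy1
    filter_upwards [hy1] with t ht
    linarith
  have hfr : ∀ δ : ℝ, 0 < δ → ∀ T : ℝ, ∃ t, T ≤ t ∧ M - δ < u t := by
    intro δ hδ T
    by_contra hcon
    push Not at hcon
    have h1 : M - δ ∈ S := by
      rw [hS, Set.mem_setOf_eq]
      filter_upwards [eventually_ge_atTop T] with t ht
      exact hcon t ht
    have h2 := csInf_le hbdd h1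
    rw [← hM] at h2
    linarith
  have hmain : ∀ ε : ℝ, 0 < ε → ∀ᶠ t in atTop, M - ε ≤ u t := by
    intro ε hε
    rcases le_or_gt M ε with hMε | hMε
    · filter_upwards [eventually_gt_atTop 0] with t ht
      have := h.nonneg t ht
      linarith
    have hb0 : 0 < M - ε / 2 := by linarith
    obtain ⟨TL, hL⟩ := h.lower
    -- eventual properties of `t0`
    have e1 : ∀ᶠ t0 : ℝ in atTop, Real.exp (-(t0 ^ (1 / 2 : ℝ) / 2)) ≤ M - ε / 2 := by
      have h1 : Tendsto (fun t : ℝ => t ^ (1 / 2 : ℝ) / 2) atTop atTop :=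
        (tendsto_rpow_atTop (by norm_num)).atTop_div_const (by norm_num)
      have h2 := Real.tendsto_exp_neg_atTop_nhds_zero.comp h1
      filter_upwards [h2.eventually (gt_mem_nhds hb0)] with t ht
      exact ht.le
    have e2 : ∀ᶠ t0 : ℝ in atTop, 6 / Real.sqrt (Real.log t0) ≤ ε / 2 := by
      have h1 : Tendsto (fun C : ℝ => Real.sqrt (Real.log C)) atTop atTop :=
        Real.tendsto_sqrt_atTop.comp Real.tendsto_log_atTop
      filter_upwards [(h1.const_div_atTop 6).eventually (gt_mem_nhds (show 0 < ε / 2 by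
        positivity))] with t ht
      exact ht.le
    have e3 : ∀ᶠ t0 : ℝ in atTop, 2 * Real.exp (-(t0 / 4)) ≤ ε / 8 := by
      have h1 : Tendsto (fun t : ℝ => t / 4) atTop atTop :=
        tendsto_id.atTop_div_const (by norm_num)
      have h2 := Real.tendsto_exp_neg_atTop_nhds_zero.comp h1
      filter_upwards [h2.eventually (gt_mem_nhds (show 0 < ε / 16 by positivity))] with t ht
      simp only [Function.comp] at ht
      linarith
    obtain ⟨T0, hT0⟩ := eventually_atTop.1
      ((((growB c (1 / 2) (by norm_num) (by norm_num)).and e1).and (e2.and e3)).and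
        ((eventually_ge_atTop TL).and (eventually_ge_atTop 4)))
    -- choice of `η`
    obtain ⟨η, hη0, hη1, hη2⟩ : ∃ η : ℝ, 0 < η ∧ η ≤ 1 / 2 ∧ η ≤ ε / 144 :=
      ⟨min (1 / 2) (ε / 144), lt_min (by norm_num) (by positivity), min_le_left _ _,
        min_le_right _ _⟩
    have hexpη : Real.exp η ≤ 1 + 2 * η := by
      have h1 := Real.add_one_le_exp (-η)
      have h2 : Real.exp η * Real.exp (-η) = 1 := by rw [← Real.exp_add, add_neg_cancel, Real.exp_zero]
      have h3 : 0 < Real.exp η := Real.exp_pos _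
      nlinarith
    obtain ⟨j, L, hL0, hsemi⟩ := semi_dense η hη0
    obtain ⟨δ, hδ⟩ : ∃ δ : ℝ, δ = ε / (8 * 11 ^ j) := ⟨_, rfl⟩
    have hδ0 : 0 < δ := by rw [hδ]; positivity
    have hδj : 11 ^ j * δ = ε / 8 := by rw [hδ]; field_simp
    obtain ⟨T1, hT1⟩ := eventually_atTop.1 (hup δ hδ0)
    obtain ⟨T, hTge, hiter⟩ := near_iter c u h M δ hM0 hδ0 T1 hT1
    obtain ⟨ts, hts1, hts2⟩ := hfr δ hδ0 (max (T * 2 ^ (j + 1)) (max T0 4 * Real.exp L))
    have hts3 : T * 2 ^ (j + 1) ≤ ts := (le_max_left _ _).trans hts1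
    have hts4 : max T0 4 * Real.exp L ≤ ts := (le_max_right _ _).trans hts1
    obtain ⟨t0, ht0⟩ : ∃ t0 : ℝ, t0 = ts * Real.exp (-L) := ⟨_, rfl⟩
    have ht0T : max T0 4 ≤ t0 := by
      have h1 := mul_le_mul_of_nonneg_right hts4 (Real.exp_pos (-L)).le
      rw [mul_assoc, ← Real.exp_add, add_neg_cancel, Real.exp_zero, mul_one] at h1
      rw [ht0]
      exact h1
    obtain ⟨⟨⟨g1, g2⟩, g3, g4⟩, g5, g6⟩ := hT0 t0 ((le_max_left _ _).trans ht0T)
    have hts0 : 0 < ts := by
      have h1 : 0 < T * 2 ^ (j + 1) := by positivity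
      linarith
    have hbase : ∀ t, t0 / 2 ≤ t → t ≤ t0 → M - ε / 2 ≤ u t := by
      intro t ht1 ht2
      have htpos : 0 < t := by linarith
      obtain ⟨s, hs⟩ : ∃ s : ℝ, s = Real.log ts - Real.log t := ⟨_, rfl⟩
      have hlt0 : Real.log t0 = Real.log ts - L := by
        rw [ht0, Real.log_mul hts0.ne' (Real.exp_pos _).ne', Real.log_exp]
        ring
      have hs1 : L ≤ s := by
        have h1 := Real.log_le_log htpos ht2
        linarith
      have hs2 : s ≤ L + 1 := by
        have h1 := Real.log_le_log (by linarith) ht1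
        rw [Real.log_div (by linarith) (by norm_num)] at h1
        have h2 := Real.log_two_lt_d9
        linarith
      obtain ⟨a, b', hab, hclose⟩ := hsemi s hs1 hs2
      obtain ⟨q, hq⟩ : ∃ q : ℝ, q = (1 / 2) ^ a * (3 / 4) ^ b' * ts := ⟨_, rfl⟩
      have hq0 : 0 < q := by rw [hq]; positivity
      have hlogq : Real.log q = Real.log ts - (a * Real.log 2 + b' * Real.log (4 / 3)) := by
        rw [hq, Real.log_mul (by positivity) hts0.ne', Real.log_mul (by positivity) (by positivity),
          Real.log_pow, Real.log_pow]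
        have h1 : Real.log (1 / 2 : ℝ) = -Real.log 2 := by
          rw [one_div, Real.log_inv]
        have h2 : Real.log (3 / 4 : ℝ) = -Real.log (4 / 3) := by
          rw [← Real.log_inv]; norm_num
        rw [h1, h2]
        ring
      have hqt : |Real.log t - Real.log q| ≤ η := by
        have h1 : Real.log t - Real.log q = a * Real.log 2 + b' * Real.log (4 / 3) - s := by
          rw [hlogq, hs]; ring
        rw [h1]
        exact hclose
      have hiq := hiter ts j hts3 hts2.le a b' hab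
      rw [← hq, hδj] at hiq
      have hqge : t0 / 4 ≤ q := by
        have h1 : Real.log (t0 / 4) ≤ Real.log q := by
          rw [Real.log_div (by linarith) (by norm_num)]
          have h2 := Real.log_le_log (by linarith) ht1
          rw [Real.log_div (by linarith) (by norm_num)] at h2
          have h3 : Real.log 4 = 2 * Real.log 2 := by
            rw [show (4 : ℝ) = 2 ^ 2 by norm_num, Real.log_pow]; norm_num
          have h4 := Real.log_two_gt_d9
          have h5 := (abs_le.1 hqt).2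
          linarith
        exact (Real.log_le_log_iff (by linarith) hq0).1 h1
      have h1 := lm_lip h.lip t q η (t0 / 4) (by linarith) (by linarith) hqge hqt
      have h2 := (abs_le.1 h1).1
      linarith
    have hgrow := g1 (M - ε / 2) u g2 (by linarith)
      (fun K t hK ht hK2 => hL K t hK (g5.trans ht) hK2) hbase
    filter_upwards [eventually_ge_atTop t0] with t ht
    have h1 := hgrow t ht
    refine le_trans ?_ h1
    have hsq : 0 ≤ 1 / Real.sqrt (Real.log t0) := by positivity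
    have e6 : 6 / Real.sqrt (Real.log t0) = 6 * (1 / Real.sqrt (Real.log t0)) := by ring
    have e7 : (M - ε / 2) * (1 - 2 / Real.sqrt (Real.log t0)) =
        (M - ε / 2) - 2 * (M - ε / 2) * (1 / Real.sqrt (Real.log t0)) := by ring
    rw [e7]
    rw [e6] at g3
    have e8 : 2 * (M - ε / 2) * (1 / Real.sqrt (Real.log t0)) ≤
        6 * (1 / Real.sqrt (Real.log t0)) := mul_le_mul_of_nonneg_right (by linarith) hsq
    linarith
  refine ⟨M, ?_⟩
  rw [Metric.tendsto_nhds]
  intro ε hε
  filter_upwards [hmain (ε / 2) (by positivity), hup (ε / 2) (by positivity)] with t h1 h2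
  rw [Real.dist_eq, abs_lt]
  constructor <;> linarith

end Pool.Agent.Work.MP_215640_nt
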