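import Pool.Agent.Work.MP_215640_nt.R.Renewal
import Pool.Agent.Work.MP_215640_nt.R.GrowB
import Pool.Agent.Work.MP_215640_nt.R.BaseR

/-!
MODULE POSR. Positive lower bound for the normalised mass of an infinite set, closed under preimages above
some point.

`base_r` with an element `g ≥ max n0 2` of the infinite set `G` (`Lg G t = Lr G t 3`, `Lr_three`): `b0 ≤ Lg G t`
for `t ≥ T1`. Choose `t0` large (`growB c (1/2)`, `t0/2 ≥ max T1 1`, `t0 ≥ T` of `h.lower`,
`exp(-sqrt t0/2) ≤ b0/t0`, `b0/t0 ≤ 3`, `log t0 ≥ 16`). On `[t0/2, t0]`: `u t = Lg G t/t ≥ b0/t0 =: b`. So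
`u t ≥ b (1 - 2/sqrt(log t0)) ≥ b/2` for all `t ≥ t0`.
-/

set_option autoImplicit false

namespace Pool.Agent.Work.MP_215640_nt

open Finset Polynomial Filter N55eda7c2

private theorem po_exp (b0 : ℝ) (hb0 : 0 < b0) : ∀ᶠ t : ℝ in atTop,
    Real.exp (-(t ^ (1 / 2 : ℝ) / 2)) ≤ b0 / t := by
  have hy : Tendsto (fun t : ℝ => Real.sqrt t / 2) atTop atTop :=
    Real.tendsto_sqrt_atTop.atTop_div_const (by norm_num)
  have h1 := hy.eventually ((Real.isLittleO_pow_exp_atTop (n := 2)).bound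
    (show (0 : ℝ) < b0 / 4 by linarith))
  filter_upwards [h1, eventually_gt_atTop 1] with t ht ht1
  have hsq : Real.sqrt t ^ 2 = t := Real.sq_sqrt (by linarith)
  rw [Real.norm_eq_abs, Real.norm_eq_abs, abs_of_nonneg (sq_nonneg _),
    abs_of_pos (Real.exp_pos _)] at ht
  rw [← Real.sqrt_eq_rpow, Real.exp_neg, ← one_div, div_le_div_iff₀ (Real.exp_pos _) (by linarith)]
  nlinarith

theorem pos_of (c : ℕ) (G : Set ℕ) (h : Renewal c (fun t => Lr G t 3 / t)) (n0 : ℕ)
    (hG : ∀ n, n0 ≤ n → jugglerStep n ∈ G → n ∈ G) (hinf : G.Infinite) :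
    ∃ b T : ℝ, 0 < b ∧ ∀ t, T ≤ t → b ≤ Lr G t 3 / t := by
  obtain ⟨g, hgG, hg⟩ := hinf.exists_gt (max n0 2)
  have hg0 : n0 ≤ g := (le_max_left _ _).trans hg.le
  have hg2 : 2 ≤ g := (le_max_right _ _).trans hg.le
  obtain ⟨b0, T1, hb0, hT1⟩ := base_r G n0 hG g hgG hg2 hg0
  obtain ⟨T, hT⟩ := h.lower
  obtain ⟨t0, hgrow, hexp, hlog, ht1, ht2, ht3, ht4⟩ :=
    ((growB c (1 / 2) (by norm_num) (by norm_num)).and ((po_exp b0 hb0).and
      ((Real.tendsto_log_atTop.eventually_ge_atTop 16).and ((eventually_ge_atTop (2 * T1)).and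
        ((eventually_ge_atTop 2).and ((eventually_ge_atTop T).and
          (eventually_ge_atTop b0))))))).exists
  have ht0 : 0 < t0 := by linarith
  have hb : 0 < b0 / t0 := div_pos hb0 ht0
  have hb3 : b0 / t0 ≤ 3 := by
    rw [div_le_iff₀ ht0]
    linarith
  have hmain := hgrow (b0 / t0) (fun t => Lr G t 3 / t) hexp hb3
    (fun K t hK htt hKt => hT K t hK (ht3.trans htt) hKt) (by
      intro t h1 h2
      have h3 := hT1 t (by linarith)
      rw [← Lr_three] at h3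
      have h4 : 0 < t := by linarith
      show b0 / t0 ≤ Lr G t 3 / t
      exact (div_le_div_of_nonneg_left hb0.le h4 h2).trans (div_le_div_of_nonneg_right h3 h4.le))
  refine ⟨b0 / t0 / 2, t0, by positivity, fun t ht => ?_⟩
  have h1 := hmain t ht
  have h2 : 4 ≤ Real.sqrt (Real.log t0) := Real.le_sqrt_of_sq_le (by norm_num; linarith)
  have h3 : 2 / Real.sqrt (Real.log t0) ≤ 1 / 2 := by
    rw [div_le_div_iff₀ (by linarith) (by norm_num)]
    linarith
  have h4 : b0 / t0 * (1 / 2) ≤ b0 / t0 * (1 - 2 / Real.sqrt (Real.log t0)) :=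
    mul_le_mul_of_nonneg_left (by linarith) hb.le
  linarith

end Pool.Agent.Work.MP_215640_nt
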