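import Pool.Agent.Work.MP_215640_nt.R.RenewalOf
import Pool.Agent.Work.MP_215640_nt.R.LimitR
import Pool.Agent.Work.MP_215640_nt.R.PosR
import Pool.Agent.Work.MP_215640_nt.R.DensW
import Pool.Agent.Work.MP_215640_nt.U.Final

/-!
MODULE DENSFINAL. Eventually invariant sets have a logarithmic density, positive if the set is infinite;
the densities of the connected components add up to `1`.

`dens_main`: `renewal_of`, `limit_of`, `dens_of_window` (density `D/3`), `pos_of`.

`comp_main`: `Comp m` is invariant (`n ∈ Comp m ↔ J n ∈ Comp m`: if `J^i n = J^j m` then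
`J^i (J n) = J^(j+1) m`), infinite for `m ≥ 1` (it contains some `g ≥ 2`, e.g. an even number `n` with
`J n = m`; then the even preimages are arbitrarily large; e.g. `(2 m)^(2^i)`... any argument), so by `dens_main`
it has a density `D m > 0`. Given `ε`, choose `C` with `1 - 3/sqrt(log log C) ≥ 1 - ε/2` in `s1_main`. Every
`n ≥ 1` with an iterate `≤ C` lies in `Comp m` for some `1 ≤ m ≤ C` (iterates of positive numbers are
positive). Being in the same component is an equivalence relation; let `S` be the set of those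
`m ∈ [1, C]` with no `1 ≤ m' < m` in `Comp m`: the `Comp m`, `m ∈ S`, are pairwise disjoint and their union
contains `Comp m` for all `1 ≤ m ≤ C`. So `∑_{m ∈ S} D m = lim (1/log x) ∑_{n ≤ x, n ∈ ⋃} 1/n ≥ 1 - ε/2`.
-/

set_option autoImplicit false

namespace Pool.Agent.Work.MP_215640_nt

open Finset Polynomial Filter N55eda7c2

/-- the connected component of `m` in the graph of the juggler map: the numbers whose orbit meets
the orbit of `m` -/
def Comp (m : ℕ) : Set ℕ := {n | ∃ i j : ℕ, jugglerStep^[i] n = jugglerStep^[j] m}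

open Classical in
theorem dens_main (hW : WordThm) (G : Set ℕ)
    (hG : ∀ᶠ n : ℕ in atTop, (jugglerStep n ∈ G ↔ n ∈ G)) :
    ∃ D : ℝ, Tendsto (fun x : ℕ =>
      (∑ n ∈ (Icc 1 x).filter (fun n => n ∈ G), (1 : ℝ) / n) / Real.log x) atTop (nhds D) ∧
      (G.Infinite → 0 < D) := by
  obtain ⟨c, hc⟩ := renewal_of hW
  have hR := hc G hG
  obtain ⟨D, hD⟩ := limit_of c _ hR
  refine ⟨D / 3, dens_of_window G D hD, ?_⟩
  intro hinf
  obtain ⟨n0, hn0⟩ := eventually_atTop.1 hG
  obtain ⟨b, T, hb, hbT⟩ := pos_of c G hR n0 (fun n hn => (hn0 n hn).1) hinf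
  have h1 : b ≤ D := ge_of_tendsto hD (by
    filter_upwards [eventually_ge_atTop T] with t ht
    exact hbT t ht)
  linarith

private theorem df_J_pos (n : ℕ) (hn : 1 ≤ n) : 1 ≤ jugglerStep n := by
  unfold jugglerStep
  have h1 : (1 : ℝ) ≤ n := by exact_mod_cast hn
  split_ifs
  · rw [Nat.one_le_floor_iff]
    exact Real.one_le_rpow h1 (by norm_num)
  · rw [Nat.one_le_floor_iff]
    exact Real.one_le_rpow h1 (by norm_num)

private theorem df_iter_pos (n : ℕ) (hn : 1 ≤ n) (k : ℕ) : 1 ≤ jugglerStep^[k] n := by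
  induction k with
  | zero => exact hn
  | succ k ih =>
    rw [Function.iterate_succ_apply']
    exact df_J_pos _ ih

/-- an even preimage of `v` larger than `v` -/
private theorem df_pre (v : ℕ) (hv : 1 ≤ v) : ∃ n, v < n ∧ jugglerStep n = v := by
  have key : ∀ n : ℕ, v ^ 2 ≤ n → n < (v + 1) ^ 2 → Even n → jugglerStep n = v := by
    intro n h1 h2 h3
    unfold jugglerStep
    rw [if_pos h3, ← Real.sqrt_eq_rpow, Nat.floor_eq_iff (by positivity)]
    constructor
    · apply Real.le_sqrt_of_sq_le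
      exact_mod_cast h1
    · rw [Real.sqrt_lt' (by positivity)]
      exact_mod_cast h2
  rcases Nat.even_or_odd (v ^ 2) with h | h
  · refine ⟨v ^ 2, ?_, key _ le_rfl (by nlinarith) h⟩
    have h2 : 2 ≤ v := by
      rcases Nat.eq_or_lt_of_le hv with h1 | h1
      · exfalso
        rw [← h1] at h
        revert h
        decide
      · exact h1
    nlinarith
  · exact ⟨v ^ 2 + 1, by nlinarith, key _ (by omega) (by nlinarith) h.add_one⟩

private theorem df_inv (m n : ℕ) : jugglerStep n ∈ Comp m ↔ n ∈ Comp m := by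
  constructor
  · rintro ⟨i, j, h⟩
    exact ⟨i + 1, j, by rw [Function.iterate_succ_apply]; exact h⟩
  · rintro ⟨i, j, h⟩
    refine ⟨i, j + 1, ?_⟩
    rw [← Function.iterate_succ_apply, Function.iterate_succ_apply', h,
      Function.iterate_succ_apply']

private theorem df_infinite (m : ℕ) (hm : 1 ≤ m) : (Comp m).Infinite := by
  intro hfin
  have hmem : m ∈ Comp m := ⟨0, 0, rfl⟩
  obtain ⟨M, hM, hmax⟩ := hfin.toFinset.exists_max_image (fun n => n)
    ⟨m, hfin.mem_toFinset.2 hmem⟩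
  have h1 : 1 ≤ M := hm.trans (hmax m (hfin.mem_toFinset.2 hmem))
  obtain ⟨n, h2, h3⟩ := df_pre M h1
  rw [hfin.mem_toFinset] at hM
  have h4 : n ∈ Comp m := by
    rw [← df_inv, h3]
    exact hM
  have h5 := hmax n (hfin.mem_toFinset.2 h4)
  omega

private theorem df_symm {m n : ℕ} (h : n ∈ Comp m) : m ∈ Comp n := by
  obtain ⟨i, j, h⟩ := h
  exact ⟨j, i, h.symm⟩

private theorem df_trans {m n k : ℕ} (h : n ∈ Comp m) (h' : m ∈ Comp k) : n ∈ Comp k := by
  obtain ⟨i, j, h⟩ := h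
  obtain ⟨a, b, h'⟩ := h'
  refine ⟨a + i, j + b, ?_⟩
  rw [Function.iterate_add_apply, h, ← Function.iterate_add_apply, add_comm a j,
    Function.iterate_add_apply, h', ← Function.iterate_add_apply]

open Classical in
theorem comp_main (hW : WordThm) :
    ∃ D : ℕ → ℝ, (∀ m, 1 ≤ m → 0 < D m ∧ Tendsto (fun x : ℕ =>
      (∑ n ∈ (Icc 1 x).filter (fun n => n ∈ Comp m), (1 : ℝ) / n) / Real.log x) atTop (nhds (D m))) ∧
      ∀ ε : ℝ, 0 < ε → ∃ S : Finset ℕ, (∀ m ∈ S, 1 ≤ m) ∧
        (∀ m ∈ S, ∀ m' ∈ S, m ≠ m' → Disjoint (Comp m) (Comp m')) ∧ 1 - ε < ∑ m ∈ S, D m := by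
  have hex : ∀ m : ℕ, ∃ D : ℝ, Tendsto (fun x : ℕ =>
      (∑ n ∈ (Icc 1 x).filter (fun n => n ∈ Comp m), (1 : ℝ) / n) / Real.log x) atTop (nhds D) ∧
      ((Comp m).Infinite → 0 < D) := fun m =>
    dens_main hW (Comp m) (Eventually.of_forall fun n => df_inv m n)
  choose D hD1 hD2 using hex
  refine ⟨D, fun m hm => ⟨hD2 m (df_infinite m hm), hD1 m⟩, ?_⟩
  intro ε hε
  have hlogx : Tendsto (fun x : ℕ => Real.log (x : ℝ)) atTop atTop :=
    Real.tendsto_log_atTop.comp tendsto_natCast_atTop_atTop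
  have hsq : Tendsto (fun C : ℝ => 3 / Real.sqrt (Real.log (Real.log C))) atTop (nhds 0) := by
    have h1 : Tendsto (fun C : ℝ => Real.sqrt (Real.log (Real.log C))) atTop atTop :=
      Real.tendsto_sqrt_atTop.comp (Real.tendsto_log_atTop.comp Real.tendsto_log_atTop)
    exact h1.const_div_atTop 3
  obtain ⟨C, hC1, hC2⟩ := ((s1_main hW).and
    (hsq.eventually (gt_mem_nhds (show 0 < ε / 2 by positivity)))).exists
  obtain ⟨S, hS⟩ : ∃ S : Finset ℕ, S = (Icc 1 ⌊C⌋₊).filter
    (fun m => ∀ m' : ℕ, 1 ≤ m' → m' < m → m' ∉ Comp m) := ⟨_, rfl⟩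
  have hS1 : ∀ m ∈ S, 1 ≤ m := by
    intro m hm
    rw [hS, mem_filter, mem_Icc] at hm
    exact hm.1.1
  have hdis : ∀ m ∈ S, ∀ m' ∈ S, m ≠ m' → Disjoint (Comp m) (Comp m') := by
    have key : ∀ m ∈ S, ∀ m' ∈ S, m' < m → Disjoint (Comp m) (Comp m') := by
      intro m hm m' hm' hlt
      rw [Set.disjoint_left]
      intro n hn hn'
      have h1 : m' ∈ Comp m := df_trans (df_symm hn') hn
      rw [hS, mem_filter] at hm
      exact hm.2 m' (hS1 m' hm') hlt h1
    intro m hm m' hm' hne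
    rcases lt_or_gt_of_ne hne with h | h
    · exact (key m' hm' m hm h).symm
    · exact key m hm m' hm' h
  refine ⟨S, hS1, hdis, ?_⟩
  · -- every number with an iterate below `C` is in one of the components
    have hcov : ∀ n : ℕ, 1 ≤ n → (∃ k : ℕ, ((jugglerStep^[k] n : ℕ) : ℝ) ≤ C) →
        ∃ m ∈ S, n ∈ Comp m := by
      intro n hn hk
      obtain ⟨k, hk⟩ := hk
      have h1 : ∃ m : ℕ, 1 ≤ m ∧ n ∈ Comp m := ⟨n, hn, ⟨0, 0, rfl⟩⟩
      obtain ⟨m, hm⟩ : ∃ m, m = Nat.find h1 := ⟨_, rfl⟩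
      have h2 : 1 ≤ m ∧ n ∈ Comp m := by rw [hm]; exact Nat.find_spec h1
      have h3 : ∀ m', m' < m → ¬ (1 ≤ m' ∧ n ∈ Comp m') := by
        intro m' hm'
        rw [hm] at hm'
        exact Nat.find_min h1 hm'
      refine ⟨m, ?_, h2.2⟩
      rw [hS, mem_filter, mem_Icc]
      refine ⟨⟨h2.1, ?_⟩, ?_⟩
      · by_contra hcon
        push Not at hcon
        have h4 : jugglerStep^[k] n < m := by
          refine lt_of_le_of_lt ?_ hcon
          exact Nat.le_floor hk
        exact h3 _ h4 ⟨df_iter_pos n hn k, ⟨k, 0, rfl⟩⟩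
      · intro m' h5 h6 h7
        exact h3 m' h6 ⟨h5, df_trans h2.2 (df_symm h7)⟩
    have hlim : Tendsto (fun x : ℕ => ∑ m ∈ S,
        (∑ n ∈ (Icc 1 x).filter (fun n => n ∈ Comp m), (1 : ℝ) / n) / Real.log x) atTop
        (nhds (∑ m ∈ S, D m)) := tendsto_finsetSum _ fun m _ => hD1 m
    have hge : 1 - ε / 2 ≤ ∑ m ∈ S, D m := by
      refine ge_of_tendsto hlim ?_
      filter_upwards [hC1, hlogx.eventually_gt_atTop 0] with x hx1 hx2
      rw [← sum_div, le_div_iff₀ hx2]
      have h1 : (1 - ε / 2) * Real.log x ≤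
          (1 - 3 / Real.sqrt (Real.log (Real.log C))) * Real.log x :=
        mul_le_mul_of_nonneg_right (by linarith) hx2.le
      refine h1.trans (hx1.trans ?_)
      have h2 : (Icc 1 x).filter (fun n : ℕ => ∃ k : ℕ, ((jugglerStep^[k] n : ℕ) : ℝ) ≤ C) ⊆
          S.biUnion (fun m => (Icc 1 x).filter (fun n => n ∈ Comp m)) := by
        intro n hn
        rw [mem_filter, mem_Icc] at hn
        obtain ⟨m, hm, hnm⟩ := hcov n hn.1.1 hn.2
        rw [mem_biUnion]
        exact ⟨m, hm, by rw [mem_filter, mem_Icc]; exact ⟨hn.1, hnm⟩⟩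
      refine (sum_le_sum_of_subset_of_nonneg h2 fun n _ _ => by positivity).trans ?_
      refine le_of_eq (sum_biUnion ?_)
      intro m hm m' hm' hne
      rw [Function.onFun, disjoint_left]
      intro n hn hn'
      rw [mem_filter] at hn hn'
      exact Set.disjoint_left.1 (hdis m hm m' hm' hne) hn.2 hn'.2
    linarith

end Pool.Agent.Work.MP_215640_nt
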