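import Pool.Agent.Work.MP_215640_nt.R.DensFinal

/-!
MODULE EQUIVR. The juggler conjecture is equivalent to its almost-all version.
-/

set_option autoImplicit false

namespace Pool.Agent.Work.MP_215640_nt

open Finset Polynomial Filter N55eda7c2

private theorem eq_J_one : jugglerStep 1 = 1 := by
  unfold jugglerStep
  rw [if_neg (by decide)]
  simp

private theorem eq_J_iter_one (k : ℕ) : jugglerStep^[k] 1 = 1 := by
  induction k with
  | zero => rfl
  | succ k ih => rw [Function.iterate_succ_apply, eq_J_one, ih]

private theorem eq_harm : Tendsto (fun x : ℕ => (∑ n ∈ Icc 1 x, (1 : ℝ) / n) / Real.log x) atTop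
    (nhds 1) := by
  have hlog : Tendsto (fun x : ℕ => Real.log (x : ℝ)) atTop atTop :=
    Real.tendsto_log_atTop.comp tendsto_natCast_atTop_atTop
  have h1 : Tendsto (fun x : ℕ => 1 + 1 / Real.log (x : ℝ)) atTop (nhds 1) := by
    have := (hlog.const_div_atTop 1).const_add 1
    simpa using this
  refine tendsto_of_tendsto_of_tendsto_of_le_of_le' tendsto_const_nhds h1 ?_ ?_
  · filter_upwards [hlog.eventually_gt_atTop 0, eventually_ge_atTop 1] with x hx hx1
    rw [le_div_iff₀ hx, one_mul]
    have h2 := log_add_one_le_harmonic x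
    rw [harmonic_eq_sum_Icc] at h2
    push_cast at h2
    simp only [one_div]
    refine le_trans ?_ h2
    apply Real.log_le_log (by exact_mod_cast hx1)
    linarith
  · filter_upwards [hlog.eventually_gt_atTop 0, eventually_ge_atTop 1] with x hx hx1
    rw [div_le_iff₀ hx, add_mul, one_mul, one_div_mul_cancel hx.ne']
    have h2 := harmonic_le_one_add_log x
    rw [harmonic_eq_sum_Icc] at h2
    push_cast at h2
    simp only [one_div]
    linarith

open Classical in
theorem equiv_main (hW : WordThm) :
    (∀ n : ℕ, 1 ≤ n → ∃ k : ℕ, jugglerStep^[k] n = 1) ↔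
    Tendsto (fun x : ℕ => (∑ n ∈ (Icc 1 x).filter (fun n : ℕ => ∃ k : ℕ, jugglerStep^[k] n = 1),
      (1 : ℝ) / n) / Real.log x) atTop (nhds 1) := by
  constructor
  · intro h
    refine eq_harm.congr fun x => ?_
    rw [filter_true_of_mem]
    intro n hn
    exact h n (mem_Icc.1 hn).1
  · intro h
    by_contra hcon
    push Not at hcon
    obtain ⟨m, hm1, hm⟩ := hcon
    obtain ⟨D, hD, -⟩ := comp_main hW
    obtain ⟨hD0, hDm⟩ := hD m hm1
    have hlim := h.add hDm
    have hle : ∀ᶠ x : ℕ in atTop,
        (∑ n ∈ (Icc 1 x).filter (fun n : ℕ => ∃ k : ℕ, jugglerStep^[k] n = 1),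
          (1 : ℝ) / n) / Real.log x +
        (∑ n ∈ (Icc 1 x).filter (fun n => n ∈ Comp m), (1 : ℝ) / n) / Real.log x ≤
        (∑ n ∈ Icc 1 x, (1 : ℝ) / n) / Real.log x := by
      filter_upwards [eventually_ge_atTop 1] with x hx
      have hx0 : 0 ≤ Real.log (x : ℝ) := Real.log_nonneg (by exact_mod_cast hx)
      rw [← add_div]
      apply div_le_div_of_nonneg_right _ hx0
      rw [← sum_union]
      · apply sum_le_sum_of_subset_of_nonneg
        · intro n hn
          rw [mem_union, mem_filter, mem_filter] at hn
          rcases hn with hn | hn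
          · exact hn.1
          · exact hn.1
        · intro n _ _
          positivity
      · rw [disjoint_left]
        intro n h1 h2
        rw [mem_filter] at h1 h2
        obtain ⟨k, hk⟩ := h1.2
        obtain ⟨i, j, hij⟩ := h2.2
        apply hm (k + j)
        rw [Function.iterate_add_apply, ← hij, ← Function.iterate_add_apply, add_comm,
          Function.iterate_add_apply, hk, eq_J_iter_one]
    have := le_of_tendsto_of_tendsto hlim eq_harm hle
    linarith

end Pool.Agent.Work.MP_215640_nt
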