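import Pool.Agent.Work.MP_215640_nt.U.Psi

/-!
MODULE FGE. Before the first passage the iterates are at least `n`.

`1 < cc w i` gives `cc w i ≥ 1 + 2^(-i)` (`cc w i = 3^a/2^i`, as in `cc_le_of_lt_one`, from `cc_eq`). By
`psi_exists w i hw n` there is `p` with `n ≤ F w i m ↔ p ≤ m` and
`log p ≤ (1/cc) log n + i n^(-1/cc) ≤ (1/cc) log n + i`. As `1 - 1/cc ≥ 2^(-i)/(1 + 2^(-i)) ≥ 2^(-i-1)` and
`log n ≥ 2^(2 i + 1) ≥ i 2^(i+1)`: `log p ≤ log n`, so `p ≤ n` and `n ≤ F w i n`.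
-/

set_option autoImplicit false

namespace Pool.Agent.Work.MP_215640_nt

open Finset Polynomial Filter

theorem F_ge_self (w : ℕ → Bool) (i n : ℕ) (hw : Posw w i) (hc : 1 < cc w i)
    (hn : Real.exp (2 ^ (2 * i + 1)) ≤ n) : n ≤ F w i n := by
  have hexp1 : (1 : ℝ) ≤ Real.exp (2 ^ (2 * i + 1)) := Real.one_le_exp (by positivity)
  have hn1 : (1 : ℝ) ≤ n := hexp1.trans hn
  have hn0 : (0 : ℝ) < n := by linarith
  have hn' : 1 ≤ n := by exact_mod_cast hn1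
  obtain ⟨p, hp1, hp2, -, hp4⟩ := psi_exists w i hw n hn'
  rw [hp2]
  obtain ⟨c, hcdef⟩ : ∃ c, c = cc w i := ⟨_, rfl⟩
  obtain ⟨δ, hδ⟩ : ∃ δ : ℝ, δ = (1 / 2) ^ i := ⟨_, rfl⟩
  have hδ0 : 0 < δ := by rw [hδ]; positivity
  have hδ1 : δ ≤ 1 := by rw [hδ]; exact pow_le_one₀ (by norm_num) (by norm_num)
  have hcδ : 1 + δ ≤ c := by
    rw [hcdef, hδ]
    rw [cc_eq] at hc ⊢
    generalize ((range i).filter (fun i => w i = true)).card = a at hc ⊢
    have h2 : (0 : ℝ) < 2 ^ i := by positivity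
    rw [one_lt_div h2] at hc
    have h3 : (2 : ℝ) ^ i + 1 ≤ 3 ^ a := by
      have : (2 : ℕ) ^ i < 3 ^ a := by exact_mod_cast hc
      exact_mod_cast this
    rw [le_div_iff₀ h2]
    have h4 : (1 + (1 / 2 : ℝ) ^ i) * 2 ^ i = 2 ^ i + 1 := by
      rw [add_mul, ← mul_pow]
      norm_num
    rw [h4]
    exact h3
  rw [← hcdef] at hp4
  have hc0 : 0 < c := by linarith
  have hinv : 1 / c ≤ 1 - δ / 2 := by
    rw [div_le_iff₀ hc0]
    nlinarith
  have hL : (2 : ℝ) ^ (2 * i + 1) ≤ Real.log n := by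
    rw [Real.le_log_iff_exp_le hn0]
    exact hn
  have hpow : (n : ℝ) ^ (-(1 / c)) ≤ 1 := by
    apply Real.rpow_le_one_of_one_le_of_nonpos hn1
    have : 0 < 1 / c := by positivity
    linarith
  have hi2 : (i : ℝ) ≤ 2 ^ i := by
    exact_mod_cast (Nat.lt_two_pow_self (n := i)).le
  have hkey : (i : ℝ) ≤ δ / 2 * Real.log n := by
    have h1 : δ / 2 * 2 ^ (2 * i + 1) = 2 ^ i := by
      rw [hδ, pow_succ, two_mul, pow_add, div_mul_eq_mul_div, ← mul_assoc, ← mul_assoc, ← mul_pow]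
      norm_num
    have h2 : δ / 2 * 2 ^ (2 * i + 1) ≤ δ / 2 * Real.log n :=
      mul_le_mul_of_nonneg_left hL (by positivity)
    linarith
  have hL0 : 0 ≤ Real.log n := Real.log_nonneg hn1
  have h1 : 1 / c * Real.log n ≤ (1 - δ / 2) * Real.log n :=
    mul_le_mul_of_nonneg_right hinv hL0
  have h2 : (i : ℝ) * (n : ℝ) ^ (-(1 / c)) ≤ i * 1 :=
    mul_le_mul_of_nonneg_left hpow (Nat.cast_nonneg _)
  have h3 : Real.log p ≤ Real.log n := by linarith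
  have hp0 : (0 : ℝ) < p := by exact_mod_cast hp1
  have h4 : (p : ℝ) ≤ n := (Real.log_le_log_iff hp0 hn0).1 h3
  exact_mod_cast h4

end Pool.Agent.Work.MP_215640_nt
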