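import Pool.Agent.Work.MP_215640_nt.U.Word

/-!
MODULE KCHOICEB. The number of levels, `K = ⌈70 log log t⌉₊`. `U/KChoice.lean` with `t^(1-β)` instead of
`sqrt t`.

`(97/100)^K ≤ e^(-2 log log t) = 1/(log t)^2`. With `y = log log t → ∞`:
`K2 c K = 2^(c K^2) ≤ exp(c (70 y + 1)^2) ≤ exp((1-β) e^y) = t^(1-β)` for large `y`.
-/

set_option autoImplicit false

namespace Pool.Agent.Work.MP_215640_nt

open Finset Polynomial Filter

theorem exists_KB (c : ℕ) (β : ℝ) (hβ0 : 0 < β) (hβ1 : β < 1) :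
    ∀ᶠ t : ℝ in atTop, ∃ K : ℕ, 1 ≤ K ∧ (K2 c K : ℝ) ≤ t ^ (1 - β) ∧
      (97 / 100 : ℝ) ^ K ≤ 1 / (Real.log t) ^ 2 := by
  have hy : Tendsto (fun t : ℝ => Real.log (Real.log t)) atTop atTop :=
    Real.tendsto_log_atTop.comp Real.tendsto_log_atTop
  have hβ2 : 0 < 1 - β := by linarith
  have hC : (0 : ℝ) < (1 - β) / (5041 * (c + 1)) := by positivity
  have hexp : ∀ᶠ y : ℝ in atTop, 5041 * c * y ^ 2 ≤ Real.exp y * (1 - β) := by
    have h1 := (Real.isLittleO_pow_exp_atTop (n := 2)).bound hC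
    filter_upwards [h1] with y hy
    rw [Real.norm_eq_abs, Real.norm_eq_abs, abs_of_nonneg (sq_nonneg y),
      abs_of_pos (Real.exp_pos y), div_mul_eq_mul_div, le_div_iff₀ (by positivity)] at hy
    nlinarith [sq_nonneg y]
  filter_upwards [hy.eventually hexp, hy.eventually_ge_atTop 1,
    Real.tendsto_log_atTop.eventually_gt_atTop 0, eventually_gt_atTop 0] with t h1 h2 h3 h4
  set y := Real.log (Real.log t) with hydef
  have hey : Real.exp y = Real.log t := Real.exp_log h3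
  have hK1 : 70 * y ≤ (⌈70 * y⌉₊ : ℝ) := Nat.le_ceil _
  have hK2 : (⌈70 * y⌉₊ : ℝ) < 70 * y + 1 := Nat.ceil_lt_add_one (by positivity)
  refine ⟨⌈70 * y⌉₊, ?_, ?_, ?_⟩
  · exact Nat.ceil_pos.2 (by positivity)
  · set K : ℕ := ⌈70 * y⌉₊ with hKdef
    have hK3 : (K : ℝ) ^ 2 ≤ 5041 * y ^ 2 := by nlinarith [Nat.cast_nonneg (α := ℝ) K]
    have h5 : (K2 c K : ℝ) = Real.exp (Real.log 2 * (c * K ^ 2 : ℕ)) := by
      rw [Real.exp_mul, Real.exp_log (by norm_num), Real.rpow_natCast]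
      unfold K2
      push_cast
      rfl
    have h6 : t ^ (1 - β) = Real.exp (Real.exp y * (1 - β)) := by
      rw [hey, Real.rpow_def_of_pos h4]
    rw [h5, h6, Real.exp_le_exp]
    have h7 : Real.log 2 ≤ 1 := by
      have := Real.log_two_lt_d9
      linarith
    have h8 : 0 ≤ Real.log 2 := Real.log_nonneg (by norm_num)
    push_cast
    have h9 : (0 : ℝ) ≤ c * (K : ℝ) ^ 2 := by positivity
    have h10 : (c : ℝ) * (K : ℝ) ^ 2 ≤ c * (5041 * y ^ 2) :=
      mul_le_mul_of_nonneg_left hK3 (Nat.cast_nonneg _)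
    calc Real.log 2 * (c * (K : ℝ) ^ 2) ≤ 1 * (c * (K : ℝ) ^ 2) :=
          mul_le_mul_of_nonneg_right h7 h9
      _ ≤ Real.exp y * (1 - β) := by linarith
  · set K : ℕ := ⌈70 * y⌉₊ with hKdef
    have h5 : (1 : ℝ) / (Real.log t) ^ 2 = Real.exp (-(2 * y)) := by
      rw [← hey, Real.exp_neg, one_div, ← Real.exp_nat_mul]
      push_cast
      rfl
    have h6 : (97 / 100 : ℝ) ^ K = Real.exp (Real.log (97 / 100) * K) := by
      rw [Real.exp_mul, Real.exp_log (by norm_num), Real.rpow_natCast]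
    rw [h5, h6, Real.exp_le_exp]
    have h7 := Real.log_le_sub_one_of_pos (x := 97 / 100) (by norm_num)
    nlinarith

end Pool.Agent.Work.MP_215640_nt
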