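import Pool.Agent.Work.MP_215640_nt.U.Word

/-!
MODULE KRAFT. The first passage words form a prefix free set.

For `p ∈ FP 1 K` (`p.1 ≤ K`, `p.2 ⊆ range p.1`) the sets `A ⊆ range K` with `A ∩ range p.1 = p.2` are
`2^(K - p.1)` in number (`A ↦ A \ range p.1` is a bijection onto the subsets of `Ico p.1 K`). They are disjoint
for different `p, p' ∈ FP 1 K`: `cc (wd p.2) l = cc (wd A) l` for `l ≤ p.1` (`cc` only depends on the steps
before `l`), so `p.1` is the first index `l` with `cc (wd A) l < 1`; hence `p.1 = p'.1`, `p.2 = p'.2`.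
So `∑_p 2^(K - p.1) ≤ 2^K`. (Compare the proofs of `fp_mass` and `fp_unique` in `S/FirstPass.lean`.)
-/

set_option autoImplicit false

namespace Pool.Agent.Work.MP_215640_nt

open Finset Polynomial Filter

private theorem kraft_cc_congr {w w' : ℕ → Bool} {l : ℕ} (h : ∀ j < l, w j = w' j) :
    cc w l = cc w' l := by
  unfold cc
  exact prod_congr rfl fun i hi => by rw [h i (mem_range.1 hi)]

/-- membership in `FP` -/
private theorem kraft_mem {K : ℕ} {p : ℕ × Finset ℕ} (h : p ∈ FP 1 K) :
    p.1 ≤ K ∧ p.2 ⊆ range p.1 ∧ cc (wd p.2) p.1 < 1 ∧ ∀ l < p.1, 1 ≤ cc (wd p.2) l := by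
  classical
  unfold FP at h
  rw [mem_filter, mem_product, mem_range] at h
  exact ⟨by have := h.1.1; omega, h.2.1, h.2.2.1, h.2.2.2⟩

/-- `p.1` is the first passage index of every extension -/
private theorem kraft_first {p : ℕ × Finset ℕ} {A : Finset ℕ}
    (hA : A ∩ range p.1 = p.2) {l : ℕ} (hl : l ≤ p.1) : cc (wd p.2) l = cc (wd A) l := by
  apply kraft_cc_congr
  intro j hj
  unfold wd
  have : (j ∈ p.2) ↔ (j ∈ A) := by
    rw [← hA, mem_inter, mem_range]
    constructor
    · exact fun h => h.1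
    · exact fun h => ⟨h, by omega⟩
  simp [this]

theorem fp_kraft (K : ℕ) : ∑ p ∈ FP 1 K, (1 / 2 : ℝ) ^ p.1 ≤ 1 := by
  classical
  let S : ℕ × Finset ℕ → Finset (Finset ℕ) := fun p =>
    (range K).powerset.filter (fun A => A ∩ range p.1 = p.2)
  have hcard : ∀ p ∈ FP 1 K, 2 ^ (K - p.1) ≤ (S p).card := by
    intro p hp
    obtain ⟨hK, hsub, -, -⟩ := kraft_mem hp
    have h1 : 2 ^ (K - p.1) = ((Ico p.1 K).powerset).card := by
      rw [card_powerset, Nat.card_Ico]
    rw [h1]
    apply Finset.card_le_card_of_injOn (fun B => p.2 ∪ B)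
    · intro B hB
      rw [mem_coe, mem_powerset] at hB
      simp only [S, coe_filter, mem_powerset, Set.mem_ofPred_eq]
      refine ⟨?_, ?_⟩
      · apply union_subset
        · intro j hj
          have := mem_range.1 (hsub hj)
          exact mem_range.2 (by omega)
        · intro j hj
          exact mem_range.2 (mem_Ico.1 (hB hj)).2
      · ext j
        rw [mem_inter, mem_union, mem_range]
        constructor
        · rintro ⟨h | h, hj⟩
          · exact h
          · have := (mem_Ico.1 (hB h)).1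
            omega
        · intro h
          exact ⟨Or.inl h, mem_range.1 (hsub h)⟩
    · intro B hB B' hB' hBB
      rw [mem_coe, mem_powerset] at hB hB'
      have key : ∀ {B B' : Finset ℕ}, B ⊆ Ico p.1 K → p.2 ∪ B = p.2 ∪ B' → B ⊆ B' := by
        intro B B' hB hBB j hj
        have h2 : j ∈ p.2 ∪ B' := by rw [← hBB]; exact mem_union_right _ hj
        rcases mem_union.1 h2 with h3 | h3
        · have h4 := mem_range.1 (hsub h3)
          have h5 := (mem_Ico.1 (hB hj)).1
          omega
        · exact h3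
      exact Finset.Subset.antisymm (key hB hBB) (key hB' hBB.symm)
  have hdisj : ∀ p ∈ FP 1 K, ∀ p' ∈ FP 1 K, p ≠ p' → Disjoint (S p) (S p') := by
    intro p hp p' hp' hne
    rw [Finset.disjoint_left]
    intro A hA hA'
    apply hne
    have h1 := (mem_filter.1 hA).2
    have h2 := (mem_filter.1 hA').2
    obtain ⟨-, -, h3, h4⟩ := kraft_mem hp
    obtain ⟨-, -, h3', h4'⟩ := kraft_mem hp'
    have h5 : p.1 = p'.1 := by
      rcases lt_trichotomy p.1 p'.1 with h | h | h
      · exfalso
        have h6 := h4' p.1 h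
        rw [kraft_first h2 h.le] at h6
        rw [kraft_first h1 le_rfl] at h3
        linarith
      · exact h
      · exfalso
        have h6 := h4 p'.1 h
        rw [kraft_first h1 h.le] at h6
        rw [kraft_first h2 le_rfl] at h3'
        linarith
    refine Prod.ext h5 ?_
    rw [← h1, ← h2, h5]
  have hsum : ∑ p ∈ FP 1 K, 2 ^ (K - p.1) ≤ 2 ^ K := by
    calc ∑ p ∈ FP 1 K, 2 ^ (K - p.1) ≤ ∑ p ∈ FP 1 K, (S p).card := Finset.sum_le_sum hcard
      _ = ((FP 1 K).biUnion S).card := (Finset.card_biUnion fun p hp p' hp' h => hdisj p hp p' hp' h).symm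
      _ ≤ ((range K).powerset).card := by
          apply Finset.card_le_card
          intro A hA
          obtain ⟨p, _, hA⟩ := mem_biUnion.1 hA
          exact (mem_filter.1 hA).1
      _ = 2 ^ K := by rw [card_powerset, card_range]
  have h2 : (0 : ℝ) < 2 ^ K := by positivity
  have h3 : (2 : ℝ) ^ K * ∑ p ∈ FP 1 K, (1 / 2 : ℝ) ^ p.1 = ∑ p ∈ FP 1 K, (2 : ℝ) ^ (K - p.1) := by
    rw [Finset.mul_sum]
    apply Finset.sum_congr rfl
    intro p hp
    have hK := (kraft_mem hp).1
    obtain ⟨r, hr⟩ := Nat.exists_eq_add_of_le hK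
    rw [hr, Nat.add_sub_cancel_left, pow_add, one_div, inv_pow]
    field_simp
  have h4 : (2 : ℝ) ^ K * ∑ p ∈ FP 1 K, (1 / 2 : ℝ) ^ p.1 ≤ 2 ^ K * 1 := by
    rw [h3, mul_one]
    exact_mod_cast hsum
  exact le_of_mul_le_mul_left h4 h2

end Pool.Agent.Work.MP_215640_nt
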