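import Pool.Agent.Work.MP_215640_nt.R.DefsR

/-!
MODULE LIPR. The normalised mass varies slowly.

Every `n` in exactly one of the windows `[e^t, e^((1+r)t))`, `[e^t', e^((1+r)t'))` lies in
`[e^t, e^t')` or in `[e^((1+r)t), e^((1+r)t'))`, so by `harmonic_upper`
`|Lr G t' r - Lr G t r| ≤ (t' - t) + e^(-t) + (1+r)(t' - t) + e^(-(1+r)t) ≤ (2+r)(t' - t) + 2 e^(-t)`. And
`Lr G t' r/t' - Lr G t r/t = (Lr G t' r - Lr G t r)/t' - Lr G t r (t' - t)/(t t')`, with
`Lr G t r ≤ r t + e^(-t) ≤ (r + 1) t` (`Lr_le`). Sum: `≤ (3 + 2r)(t' - t)/t' + 2 e^(-t)/t'`.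
-/

set_option autoImplicit false

namespace Pool.Agent.Work.MP_215640_nt

open Finset Polynomial Filter

private theorem li_sum_le (A B : Finset ℕ) :
    ∑ n ∈ B, (1 : ℝ) / n ≤ ∑ n ∈ A, (1 : ℝ) / n + ∑ n ∈ B \ A, (1 : ℝ) / n := by
  rw [← sum_union disjoint_sdiff]
  apply sum_le_sum_of_subset_of_nonneg
  · intro n hn
    rw [mem_union, Finset.mem_sdiff]
    by_cases h : n ∈ A
    · exact Or.inl h
    · exact Or.inr ⟨hn, h⟩
  · intro n _ _
    positivity

private theorem li_up (G : Set ℕ) (t t' r : ℝ) (htt : t ≤ t') (hr : 0 < r) :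
    Lr G t' r ≤ Lr G t r + ((1 + r) * (t' - t) + Real.exp (-((1 + r) * t))) := by
  classical
  have h1 : (1 + r) * t ≤ (1 + r) * t' := mul_le_mul_of_nonneg_left htt (by linarith)
  unfold Lr
  refine (li_sum_le _ _).trans (add_le_add le_rfl ?_)
  have h2 := harmonic_upper (Real.exp ((1 + r) * t)) (Real.exp ((1 + r) * t')) (Real.exp_pos _)
    (Real.exp_le_exp.2 h1)
    ((range ⌈Real.exp ((1 + r) * t')⌉₊).filter (fun n : ℕ => n ∈ G ∧ Real.exp t' ≤ n) \
      (range ⌈Real.exp ((1 + r) * t)⌉₊).filter (fun n : ℕ => n ∈ G ∧ Real.exp t ≤ n)) ?_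
  · rw [Real.log_exp, Real.log_exp, one_div, ← Real.exp_neg] at h2
    linarith
  · intro n hn
    obtain ⟨hn1, h6⟩ := Finset.mem_sdiff.1 hn
    rw [mem_filter, mem_range, Nat.lt_ceil] at hn1 h6
    obtain ⟨h3, h4, h5⟩ := hn1
    refine ⟨?_, h3⟩
    by_contra h7
    push Not at h7
    exact h6 ⟨h7, h4, (Real.exp_le_exp.2 htt).trans h5⟩

private theorem li_down (G : Set ℕ) (t t' r : ℝ) (htt : t ≤ t') (hr : 0 < r) :
    Lr G t r ≤ Lr G t' r + ((t' - t) + Real.exp (-t)) := by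
  classical
  have h1 : (1 + r) * t ≤ (1 + r) * t' := mul_le_mul_of_nonneg_left htt (by linarith)
  unfold Lr
  refine (li_sum_le _ _).trans (add_le_add le_rfl ?_)
  have h2 := harmonic_upper (Real.exp t) (Real.exp t') (Real.exp_pos _)
    (Real.exp_le_exp.2 htt)
    ((range ⌈Real.exp ((1 + r) * t)⌉₊).filter (fun n : ℕ => n ∈ G ∧ Real.exp t ≤ n) \
      (range ⌈Real.exp ((1 + r) * t')⌉₊).filter (fun n : ℕ => n ∈ G ∧ Real.exp t' ≤ n)) ?_
  · rw [Real.log_exp, Real.log_exp, one_div, ← Real.exp_neg] at h2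
    linarith
  · intro n hn
    obtain ⟨hn1, h6⟩ := Finset.mem_sdiff.1 hn
    rw [mem_filter, mem_range, Nat.lt_ceil] at hn1 h6
    obtain ⟨h3, h4, h5⟩ := hn1
    refine ⟨h5, ?_⟩
    by_contra h7
    push Not at h7
    exact h6 ⟨h3.trans_le (Real.exp_le_exp.2 h1), h4, h7⟩

theorem lr_lip (G : Set ℕ) (t t' r : ℝ) (ht : 1 ≤ t) (htt : t ≤ t') (hr : 0 < r) (hr3 : r ≤ 3) :
    |Lr G t' r / t' - Lr G t r / t| ≤ 9 * ((t' - t) / t) + 2 * Real.exp (-t) := by
  have ht0 : 0 < t := by linarith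
  have ht0' : 0 < t' := by linarith
  have hup := li_up G t t' r htt hr
  have hdn := li_down G t t' r htt hr
  have hL0 := Lr_nonneg G t r
  have hLle := Lr_le G t r ht0.le hr.le
  have he0 : 0 < Real.exp (-t) := Real.exp_pos _
  have he1 : Real.exp (-t) ≤ 1 := Real.exp_le_one_iff.2 (by linarith)
  have he2 : Real.exp (-((1 + r) * t)) ≤ Real.exp (-t) := by
    apply Real.exp_le_exp.2
    nlinarith
  have hd0 : 0 ≤ t' - t := by linarith
  have hq : (t' - t) / t' ≤ (t' - t) / t := div_le_div_of_nonneg_left hd0 ht0 htt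
  have hq0 : 0 ≤ (t' - t) / t' := div_nonneg hd0 ht0'.le
  have heq : Real.exp (-t) / t' ≤ Real.exp (-t) := div_le_self he0.le (by linarith)
  have hL4 : Lr G t r ≤ 4 * t := by nlinarith
  rw [abs_le]
  constructor
  · have h1 : (Lr G t r - ((t' - t) + Real.exp (-t))) / t' ≤ Lr G t' r / t' :=
      div_le_div_of_nonneg_right (by linarith) ht0'.le
    have h2 : (Lr G t r - ((t' - t) + Real.exp (-t))) / t' - Lr G t r / t =
        -((Lr G t r / t) * ((t' - t) / t')) - (t' - t) / t' - Real.exp (-t) / t' := by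
      field_simp
      ring
    have h3 : Lr G t r / t ≤ 4 := by
      rw [div_le_iff₀ ht0]
      exact hL4
    have h4 : (Lr G t r / t) * ((t' - t) / t') ≤ 4 * ((t' - t) / t') :=
      mul_le_mul_of_nonneg_right h3 hq0
    linarith
  · have h1 : Lr G t' r / t' ≤ (Lr G t r + (4 * (t' - t) + Real.exp (-t))) / t' := by
      apply div_le_div_of_nonneg_right _ ht0'.le
      nlinarith
    have h2 : (Lr G t r + (4 * (t' - t) + Real.exp (-t))) / t' =
        Lr G t r / t' + 4 * ((t' - t) / t') + Real.exp (-t) / t' := by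
      field_simp
      ring
    have h3 : Lr G t r / t' ≤ Lr G t r / t := div_le_div_of_nonneg_left hL0 ht0 htt
    linarith

end Pool.Agent.Work.MP_215640_nt
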