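import Pool.Agent.Work.MP_215640_nt.R.RenewR
import Pool.Agent.Work.MP_215640_nt.R.GrowB

/-!
MODULE NATBLOCK. In the block `[N, 2N)` almost all `n` have an iterate `≤ exp((log log n)^(1+ε))`.

Let `T = log N`, `r = log 2/T` (so `e^T = N`, `e^((1+r)T) = 2N`), `A = log T`, `t0 = (4 A)^(1 + ε/2)`,
`β = 1/(1 + ε/2)`, so `t0^β/2 = 2 A` and `exp(-t0^β/2) = T^(-2)`. Let `G = {n | ∃ k, J^[k] n ≤ e^(2 t0)}`,
closed under preimages, and `u t = Lr G t r/t`. `renewR` divided by `t` is the inequality of `growB`. For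
`t ∈ [t0/2, t0]` all `n < e^((1+r)t) ≤ e^(2 t0)` are in `G`, so `u t ≥ r - e^(-t)/t ≥ r - e^(-t0/2) ≥ b := r (1 - 1/T)`
as `t0/2 ≥ 3 A` and `T^(-3) ≤ log 2/T^2`; `exp(-t0^β/2) = T^(-2) ≤ b ≤ 3` for large `N`. `growB` at `t = T ≥ t0`:
`Lr G T r ≥ T b (1 - 2/sqrt(log t0)) = log 2 (1 - 1/T)(1 - 2/sqrt(log t0))`. With `Lr univ T r ≤ log 2 + 1/N`
(`Lr_le`): the sum of `1/n ≥ 1/(2N)` over the `n ∈ [N, 2N)` outside `G` tends to `0`. Finally
`2 t0 = 2 (4 A)^(1+ε/2) ≤ A^(1+ε) ≤ (log log n)^(1+ε)` for `n ≥ N`, `N` large. (`t0 → ∞` as `N → ∞`, so the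
`∀ᶠ t0` of `growB` applies.)
-/

set_option autoImplicit false

namespace Pool.Agent.Work.MP_215640_nt

open Finset Polynomial Filter N55eda7c2

open Classical in
/-- the deterministic part -/
private theorem nb_det (c : ℕ)
    (hR : ∀ (K : ℕ) (t r : ℝ) (G : Set ℕ), 1 ≤ K → (K2 c K : ℝ) ≤ t → 0 < r → r ≤ 3 →
      (∀ n : ℕ, Real.exp t ≤ n → jugglerStep n ∈ G → n ∈ G) →
      ∑ p ∈ FP 1 K, (1 / 2) ^ p.1 / cc (wd p.2) p.1 * Lr G (cc (wd p.2) p.1 * t) r
        - Real.exp (-(t / K2 c K)) ≤ Lr G t r)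
    (ε : ℝ) (hε : 0 < ε) (N : ℕ) (T A t0 β : ℝ) (hN : 1 ≤ N) (hT : T = Real.log N)
    (hA : A = Real.log T) (hT3 : 3 ≤ T) (h1 : t0 ≤ T) (h2 : 6 * A ≤ t0) (h3 : 2 ≤ t0)
    (h4 : 2 * t0 ≤ A ^ (1 + ε)) (h5 : t0 ^ β = 4 * A)
    (hg : ∀ (b : ℝ) (u : ℝ → ℝ), Real.exp (-(t0 ^ β / 2)) ≤ b → b ≤ 3 →
      (∀ (K : ℕ) (t : ℝ), 1 ≤ K → t0 ≤ t → (K2 c K : ℝ) ≤ t →
        ∑ p ∈ FP 1 K, (1 / 2) ^ p.1 * u (cc (wd p.2) p.1 * t) - Real.exp (-(t / K2 c K)) ≤ u t) →
      (∀ t, t0 / 2 ≤ t → t ≤ t0 → b ≤ u t) →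
      ∀ t, t0 ≤ t → b * (1 - 2 / Real.sqrt (Real.log t0)) ≤ u t) :
    (((Ico N (2 * N)).filter (fun n : ℕ =>
      ¬ ∃ k : ℕ, ((jugglerStep^[k] n : ℕ) : ℝ) ≤
        Real.exp (Real.log (Real.log n) ^ (1 + ε)))).card : ℝ) / N ≤
      2 * (Real.log 2 + Real.exp (-T) -
        Real.log 2 * (1 - 1 / T) * (1 - 2 / Real.sqrt (Real.log t0))) := by
  have hN0 : (0 : ℝ) < N := by exact_mod_cast hN
  have hT0 : 0 < T := by linarith
  have hexpT : Real.exp T = N := by rw [hT, Real.exp_log hN0]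
  have hexpA : Real.exp A = T := by rw [hA, Real.exp_log hT0]
  have hA0 : 0 ≤ A := by rw [hA]; exact Real.log_nonneg (by linarith)
  have hl2 : 0 < Real.log 2 := Real.log_pos (by norm_num)
  have hl2' : 0.6931471803 < Real.log 2 := Real.log_two_gt_d9
  have hl2'' : Real.log 2 < 0.6931471808 := Real.log_two_lt_d9
  obtain ⟨r, hr⟩ : ∃ r : ℝ, r = Real.log 2 / T := ⟨_, rfl⟩
  have hr0 : 0 < r := by rw [hr]; positivity
  have hr1 : r ≤ 1 := by
    rw [hr, div_le_one hT0]; linarith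
  have hrT : r * T = Real.log 2 := by rw [hr]; field_simp
  have hexp2 : Real.exp ((1 + r) * T) = 2 * N := by
    have : (1 + r) * T = Real.log 2 + T := by rw [add_mul, hrT]; ring
    rw [this, Real.exp_add, Real.exp_log (by norm_num), hexpT]
  obtain ⟨G, hG⟩ : ∃ G : Set ℕ, G = {n | ∃ k : ℕ, ((jugglerStep^[k] n : ℕ) : ℝ) ≤ Real.exp (2 * t0)} :=
    ⟨_, rfl⟩
  have hGpre : ∀ n : ℕ, jugglerStep n ∈ G → n ∈ G := by
    intro n hn
    rw [hG] at hn ⊢
    obtain ⟨k, hk⟩ := hn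
    exact ⟨k + 1, by rw [Function.iterate_succ_apply]; exact hk⟩
  -- the value of `b`
  obtain ⟨b, hb⟩ : ∃ b : ℝ, b = r * (1 - 1 / T) := ⟨_, rfl⟩
  have hTinv : 1 / T ≤ 1 / 3 := one_div_le_one_div_of_le (by norm_num) hT3
  have hTinv0 : 0 < 1 / T := by positivity
  have hb' : b = Real.log 2 / T - Real.log 2 / T ^ 2 := by
    rw [hb, hr]; field_simp
  have hexp1 : Real.exp (-(t0 ^ β / 2)) = 1 / T ^ 2 := by
    rw [h5]
    have : -(4 * A / 2) = -(A + A) := by ring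
    rw [this, Real.exp_neg, Real.exp_add, hexpA, one_div, sq]
  have hb1 : Real.exp (-(t0 ^ β / 2)) ≤ b := by
    rw [hexp1, hb', div_sub_div _ _ hT0.ne' (by positivity), div_le_div_iff₀ (by positivity) (by positivity)]
    have e1 : (Real.log 2 * T ^ 2 - T * Real.log 2) * T ^ 2 - 1 * (T * T ^ 2) =
        T ^ 3 * (Real.log 2 * T - Real.log 2 - 1) := by ring
    have e2 : 0 ≤ T ^ 3 * (Real.log 2 * T - Real.log 2 - 1) := by
      apply mul_nonneg (by positivity)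
      nlinarith
    linarith
  have hb3 : b ≤ 3 := by
    rw [hb]
    nlinarith
  -- the renewal inequality
  have hu : ∀ (K : ℕ) (t : ℝ), 1 ≤ K → t0 ≤ t → (K2 c K : ℝ) ≤ t →
        ∑ p ∈ FP 1 K, (1 / 2) ^ p.1 * ((fun s => Lr G s r / s) (cc (wd p.2) p.1 * t)) -
          Real.exp (-(t / K2 c K)) ≤ (fun s => Lr G s r / s) t := by
    intro K t hK ht0 ht
    have ht1 : 1 ≤ t := by linarith
    have k1 := hR K t r G hK ht hr0 (by linarith) (fun n _ hn => hGpre n hn)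
    have k2 : 0 < Real.exp (-(t / K2 c K)) := Real.exp_pos _
    have k3 : ∑ p ∈ FP 1 K, (1 / 2) ^ p.1 * (Lr G (cc (wd p.2) p.1 * t) r / (cc (wd p.2) p.1 * t)) =
        (∑ p ∈ FP 1 K, (1 / 2) ^ p.1 / cc (wd p.2) p.1 * Lr G (cc (wd p.2) p.1 * t) r) / t := by
      rw [sum_div]
      refine sum_congr rfl fun p _ => ?_
      have h7 : cc (wd p.2) p.1 ≠ 0 := (cc_pos _ _).ne'
      field_simp
    show ∑ p ∈ FP 1 K, (1 / 2) ^ p.1 * (Lr G (cc (wd p.2) p.1 * t) r / (cc (wd p.2) p.1 * t)) -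
      Real.exp (-(t / K2 c K)) ≤ Lr G t r / t
    rw [k3, le_div_iff₀ (by linarith), sub_mul, div_mul_cancel₀ _ (by linarith)]
    nlinarith
  -- the base
  have hbase : ∀ t, t0 / 2 ≤ t → t ≤ t0 → b ≤ (fun s => Lr G s r / s) t := by
    intro t ht ht'
    have ht1 : 1 ≤ t := by linarith
    have k1 := Lr_full G t r (by linarith) (by
      intro n hn hn'
      rw [hG]
      refine ⟨0, ?_⟩
      rw [Function.iterate_zero_apply]
      refine hn'.le.trans (Real.exp_le_exp.2 ?_)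
      nlinarith)
    have k2 : Real.exp (-t) ≤ 1 / T ^ 3 := by
      have e1 : -t ≤ -(A + A + A) := by linarith
      refine (Real.exp_le_exp.2 e1).trans (le_of_eq ?_)
      rw [Real.exp_neg, Real.exp_add, Real.exp_add, hexpA, one_div]
      congr 1
      ring
    have k3 : 1 / T ^ 3 ≤ Real.log 2 / T ^ 2 := by
      rw [div_le_div_iff₀ (by positivity) (by positivity)]
      have e1 : Real.log 2 * T ^ 3 - 1 * T ^ 2 = T ^ 2 * (Real.log 2 * T - 1) := by ring
      have e2 : 0 ≤ T ^ 2 * (Real.log 2 * T - 1) := by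
        apply mul_nonneg (by positivity)
        nlinarith
      linarith
    show b ≤ Lr G t r / t
    rw [le_div_iff₀ (by linarith), hb']
    have k4 : 0 < Real.exp (-t) := Real.exp_pos _
    have k5 : Real.log 2 / T = r := hr.symm
    rw [k5]
    have k6 : 0 ≤ Real.log 2 / T ^ 2 := by positivity
    nlinarith
  have hfin := hg b _ hb1 hb3 hu hbase T h1
  have hfin' : Real.log 2 * (1 - 1 / T) * (1 - 2 / Real.sqrt (Real.log t0)) ≤ Lr G T r := by
    have k1 : b * (1 - 2 / Real.sqrt (Real.log t0)) ≤ Lr G T r / T := hfin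
    rw [le_div_iff₀ hT0] at k1
    refine le_trans (le_of_eq ?_) k1
    rw [hb, ← hrT]
    ring
  have hcompl := Lr_compl G T r
  have huniv := Lr_le Set.univ T r hT0.le hr0.le
  rw [hrT] at huniv
  have hbad : Lr Gᶜ T r ≤ Real.log 2 + Real.exp (-T) -
      Real.log 2 * (1 - 1 / T) * (1 - 2 / Real.sqrt (Real.log t0)) := by linarith
  -- the bad numbers
  obtain ⟨B, hB⟩ : ∃ B : Finset ℕ, B = (Ico N (2 * N)).filter (fun n : ℕ =>
      ¬ ∃ k : ℕ, ((jugglerStep^[k] n : ℕ) : ℝ) ≤ Real.exp (Real.log (Real.log n) ^ (1 + ε))) := ⟨_, rfl⟩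
  rw [← hB]
  have hBG : ∀ n ∈ B, N ≤ n ∧ n < 2 * N ∧ n ∈ Gᶜ := by
    intro n hn
    rw [hB, mem_filter, mem_Ico] at hn
    refine ⟨hn.1.1, hn.1.2, fun hnG => hn.2 ?_⟩
    rw [hG] at hnG
    obtain ⟨k, hk⟩ := hnG
    refine ⟨k, hk.trans (Real.exp_le_exp.2 (h4.trans ?_))⟩
    apply Real.rpow_le_rpow hA0 _ (by linarith)
    rw [hA, hT]
    have hnN : (N : ℝ) ≤ n := by exact_mod_cast hn.1.1
    exact Real.log_le_log (by rw [← hT]; exact hT0) (Real.log_le_log hN0 hnN)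
  have hsum : (B.card : ℝ) * (1 / (2 * N)) ≤ Lr Gᶜ T r := by
    calc (B.card : ℝ) * (1 / (2 * N)) = ∑ _n ∈ B, (1 : ℝ) / (2 * N) := by
          rw [sum_const, nsmul_eq_mul]
      _ ≤ ∑ n ∈ B, (1 : ℝ) / n := by
          refine sum_le_sum fun n hn => ?_
          obtain ⟨k1, k2, -⟩ := hBG n hn
          have k3 : (0 : ℝ) < n := by
            have : 0 < n := by omega
            exact_mod_cast this
          apply one_div_le_one_div_of_le k3
          have : n ≤ 2 * N := k2.le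
          exact_mod_cast this
      _ ≤ Lr Gᶜ T r := by
          unfold Lr
          apply sum_le_sum_of_subset_of_nonneg
          · intro n hn
            obtain ⟨k1, k2, k3⟩ := hBG n hn
            simp only [mem_filter, mem_range, Nat.lt_ceil]
            refine ⟨?_, k3, ?_⟩
            · rw [hexp2]; exact_mod_cast k2
            · rw [hexpT]; exact_mod_cast k1
          · intro n _ _
            positivity
  have hsum' := hsum.trans hbad
  rw [div_le_iff₀ hN0]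
  rw [mul_one_div, div_le_iff₀ (by positivity)] at hsum'
  linarith

open Classical in
theorem nat_block (hW : WordThm) (ε : ℝ) (hε : 0 < ε) :
    Tendsto (fun N : ℕ => (((Ico N (2 * N)).filter (fun n : ℕ =>
      ¬ ∃ k : ℕ, ((jugglerStep^[k] n : ℕ) : ℝ) ≤
        Real.exp (Real.log (Real.log n) ^ (1 + ε)))).card : ℝ) / N) atTop (nhds 0) := by
  obtain ⟨c, hR⟩ := renewR hW
  obtain ⟨s, hs⟩ : ∃ s : ℝ, s = 1 + ε / 2 := ⟨_, rfl⟩
  have hs1 : 1 < s := by linarith
  have hs0 : 0 < s := by linarith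
  obtain ⟨β, hβ⟩ : ∃ β : ℝ, β = 1 / s := ⟨_, rfl⟩
  have hβ0 : 0 < β := by rw [hβ]; positivity
  have hβ1 : β < 1 := by rw [hβ, div_lt_one hs0]; exact hs1
  have hg := growB c β hβ0 hβ1
  -- the quantities
  have lT : Tendsto (fun N : ℕ => Real.log (N : ℝ)) atTop atTop :=
    Real.tendsto_log_atTop.comp tendsto_natCast_atTop_atTop
  have lA : Tendsto (fun N : ℕ => Real.log (Real.log (N : ℝ))) atTop atTop :=
    Real.tendsto_log_atTop.comp lT
  have l4A : Tendsto (fun N : ℕ => 4 * Real.log (Real.log (N : ℝ))) atTop atTop :=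
    lA.const_mul_atTop (by norm_num)
  have lt0 : Tendsto (fun N : ℕ => (4 * Real.log (Real.log (N : ℝ))) ^ s) atTop atTop :=
    (tendsto_rpow_atTop hs0).comp l4A
  -- eventual inequalities
  have e1 : ∀ᶠ y : ℝ in atTop, y ^ s ≤ Real.exp (1 / 4 * y) := by
    have := (isLittleO_rpow_exp_pos_mul_atTop s (show (0 : ℝ) < 1 / 4 by norm_num)).bound
      (show (0 : ℝ) < 1 by norm_num)
    filter_upwards [this, eventually_ge_atTop 0] with y hy hy0
    rw [one_mul, Real.norm_of_nonneg (by positivity), Real.norm_of_nonneg (by positivity)] at hy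
    exact hy
  have e2 : ∀ᶠ x : ℝ in atTop, 2 * 4 ^ s ≤ x ^ (ε / 2) :=
    (tendsto_rpow_atTop (by positivity : 0 < ε / 2)).eventually_ge_atTop _
  have hbound : ∀ᶠ N : ℕ in atTop, (((Ico N (2 * N)).filter (fun n : ℕ =>
      ¬ ∃ k : ℕ, ((jugglerStep^[k] n : ℕ) : ℝ) ≤
        Real.exp (Real.log (Real.log n) ^ (1 + ε)))).card : ℝ) / N ≤
      2 * (Real.log 2 + Real.exp (-(Real.log (N : ℝ))) -
        Real.log 2 * (1 - 1 / Real.log (N : ℝ)) *
          (1 - 2 / Real.sqrt (Real.log ((4 * Real.log (Real.log (N : ℝ))) ^ s)))) := by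
    filter_upwards [eventually_ge_atTop 1, lT.eventually_ge_atTop 3, lA.eventually_ge_atTop 1,
      l4A.eventually e1, lA.eventually e2, lt0.eventually_ge_atTop 2, lt0.eventually hg] with
      N k1 k2 k3 k4 k5 k6 k7
    have hA0 : 0 < Real.log (Real.log (N : ℝ)) := by linarith
    have hT0 : 0 < Real.log (N : ℝ) := by linarith
    refine nb_det c hR ε hε N (Real.log N) (Real.log (Real.log N)) _ β k1 rfl rfl k2 ?_ ?_ k6 ?_ ?_ k7
    · refine k4.trans (le_of_eq ?_)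
      have : 1 / 4 * (4 * Real.log (Real.log (N : ℝ))) = Real.log (Real.log (N : ℝ)) := by ring
      rw [this, Real.exp_log hT0]
    · -- `6 A ≤ (4 A)^s`
      have h4 : (4 * Real.log (Real.log (N : ℝ))) ^ s =
          4 ^ s * (Real.log (Real.log (N : ℝ)) * Real.log (Real.log (N : ℝ)) ^ (ε / 2)) := by
        rw [Real.mul_rpow (by norm_num) hA0.le, hs, Real.rpow_add hA0, Real.rpow_one]
      rw [h4]
      have h5 : (4 : ℝ) ≤ 4 ^ s := by
        calc (4 : ℝ) = 4 ^ (1 : ℝ) := by rw [Real.rpow_one]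
          _ ≤ 4 ^ s := Real.rpow_le_rpow_of_exponent_le (by norm_num) hs1.le
      have h6 : (8 : ℝ) ≤ Real.log (Real.log (N : ℝ)) ^ (ε / 2) := by linarith
      have h7 : 4 * (Real.log (Real.log (N : ℝ)) * 8) ≤
          4 ^ s * (Real.log (Real.log (N : ℝ)) * Real.log (Real.log (N : ℝ)) ^ (ε / 2)) := by
        apply mul_le_mul h5 _ (by positivity) (by positivity)
        exact mul_le_mul_of_nonneg_left h6 hA0.le
      linarith
    · -- `2 (4 A)^s ≤ A^(1 + ε)`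
      have h4 : (4 * Real.log (Real.log (N : ℝ))) ^ s = 4 ^ s * Real.log (Real.log (N : ℝ)) ^ s := by
        rw [Real.mul_rpow (by norm_num) hA0.le]
      have h5 : Real.log (Real.log (N : ℝ)) ^ (1 + ε) =
          Real.log (Real.log (N : ℝ)) ^ (ε / 2) * Real.log (Real.log (N : ℝ)) ^ s := by
        rw [← Real.rpow_add hA0, hs]
        congr 1
        ring
      rw [h4, h5, ← mul_assoc]
      exact mul_le_mul_of_nonneg_right k5 (by positivity)
    · rw [hβ, ← Real.rpow_mul (by linarith), mul_one_div, div_self hs0.ne', Real.rpow_one]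
  refine squeeze_zero' (Eventually.of_forall fun N => by positivity) hbound ?_
  have m1 : Tendsto (fun N : ℕ => Real.exp (-(Real.log (N : ℝ)))) atTop (nhds 0) :=
    Real.tendsto_exp_neg_atTop_nhds_zero.comp lT
  have m2 : Tendsto (fun N : ℕ => 1 / Real.log (N : ℝ)) atTop (nhds 0) := by
    simpa [one_div, Function.comp_def] using tendsto_inv_atTop_zero.comp lT
  have m3 : Tendsto (fun N : ℕ => 2 / Real.sqrt (Real.log ((4 * Real.log (Real.log (N : ℝ))) ^ s)))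
      atTop (nhds 0) := by
    have m4 : Tendsto (fun N : ℕ => Real.sqrt (Real.log ((4 * Real.log (Real.log (N : ℝ))) ^ s)))
      atTop atTop := Real.tendsto_sqrt_atTop.comp (Real.tendsto_log_atTop.comp lt0)
    simpa [div_eq_mul_inv, Function.comp_def] using (tendsto_inv_atTop_zero.comp m4).const_mul 2
  have m5 := ((tendsto_const_nhds (x := Real.log 2)).add m1).sub
    ((((tendsto_const_nhds (x := (1 : ℝ))).sub m2).const_mul (Real.log 2)).mul
      ((tendsto_const_nhds (x := (1 : ℝ))).sub m3))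
  have m6 := m5.const_mul 2
  have e3 : (2 : ℝ) * (Real.log 2 + 0 - Real.log 2 * (1 - 0) * (1 - 0)) = 0 := by ring
  rw [e3] at m6
  exact m6

end Pool.Agent.Work.MP_215640_nt
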