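import Pool.Agent.Work.MP_215640_nt.R.NatBlock
import Pool.Agent.Work.MP_215640_nt.Density

/-!
MODULE NATFINAL. Natural density: `dyadic` (`Density.lean`) with `θ = 0` for the exceptions, then the
complement.
-/

set_option autoImplicit false

namespace Pool.Agent.Work.MP_215640_nt

open Finset Polynomial Filter N55eda7c2

open Classical in
private theorem nf_compl (P : ℕ → Prop)
    (H : Tendsto (fun x : ℕ => (((range x).filter (fun n => ¬ P n)).card : ℝ) / x) atTop (nhds 0)) :
    Tendsto (fun x : ℕ => (((range x).filter (fun n => P n)).card : ℝ) / x) atTop (nhds 1) := by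
  have h2 := (tendsto_const_nhds (x := (1 : ℝ)) (f := (atTop : Filter ℕ))).sub H
  rw [sub_zero] at h2
  refine h2.congr' ?_
  filter_upwards [eventually_gt_atTop 0] with x hx
  have hx0 : (0 : ℝ) < x := by exact_mod_cast hx
  have h3 := card_filter_add_card_filter_not (s := range x) (fun n : ℕ => P n)
  rw [card_range] at h3
  have h4 : ((((range x).filter (fun n : ℕ => P n)).card : ℕ) : ℝ) +
      ((((range x).filter (fun n : ℕ => ¬ P n)).card : ℕ) : ℝ) = x := by
    exact_mod_cast h3
  rw [eq_div_iff hx0.ne', sub_mul, one_mul, div_mul_cancel₀ _ hx0.ne']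
  linarith

open Classical in
theorem nat_main (hW : WordThm) (ε : ℝ) (hε : 0 < ε) :
    Tendsto (fun x : ℕ => (((range x).filter (fun n : ℕ =>
      ∃ k : ℕ, ((jugglerStep^[k] n : ℕ) : ℝ) ≤
        Real.exp (Real.log (Real.log n) ^ (1 + ε)))).card : ℝ) / x) atTop (nhds 1) := by
  have h1 := dyadic (fun n : ℕ => ¬ ∃ k : ℕ, ((jugglerStep^[k] n : ℕ) : ℝ) ≤
        Real.exp (Real.log (Real.log n) ^ (1 + ε))) 0 (by convert nat_block hW ε hε)
  exact nf_compl _ (by convert h1)

end Pool.Agent.Work.MP_215640_nt
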