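import Pool.Agent.Work.MP_215640_nt.R.Renewal
import Pool.Agent.Work.MP_215640_nt.R.Kraft

/-!
MODULE NEARMAX. Where `u` is near its upper limit `M`, it is also near `M` at `t/2` and `3t/4`.

`near_max`: choose `K ≥ 2` with `3 (97/100)^K ≤ δ/2` and `T` (at least `h.upper`'s `T`, `K2 c K`, `1`) with
`3 exp(-T/K2 c K) ≤ δ/2`. The words `(1, ∅)` (`cc = 1/2`, weight `1/2`) and `(2, {0})` (`cc = 3/4`, weight
`1/4`) are in `FP 1 K` (see `gr_mem`, `gr_half` in `U/Grow.lean`); `cc ∈ [1/2, 1)` for all words (`fp_one`).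
`h.upper`: `M - κ ≤ u t ≤ ∑_p 2^(-p.1) u (cc t) + δ`, and the other words contribute at most
`(1 - 1/2)(M + δ)` resp. `(1 - 1/4)(M + δ)` (`fp_kraft`, `M + δ ≥ 0`). So
`u (t/2) ≥ 2 (M - κ - δ) - (M + δ) = M - 2κ - 3δ ≥ M - 5κ` and
`u (3t/4) ≥ 4 (M - κ - δ) - 3 (M + δ) = M - 4κ - 7δ ≥ M - 11κ`.

`near_iter`: induction on `a + b`; `T ≥ max (near_max's T) T1 1`; all the points `(1/2)^a (3/4)^b t` with
`a + b ≤ j` are `≥ t/2^j ≥ 2T`, so `near_max` applies at them (with `κ = 11^(a+b) δ`) and the half of the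
point is still `≥ T ≥ T1`.
-/

set_option autoImplicit false

namespace Pool.Agent.Work.MP_215640_nt

open Finset Polynomial Filter

private theorem nm_half : cc (wd ∅) 1 = 1 / 2 := by
  have h := cc_succ (wd ∅) 0
  rw [cc_zero] at h
  simp only [wd, ex] at h
  simp only [Nat.zero_add] at h
  rw [h]
  norm_num

private theorem nm_one : cc (wd {0}) 1 = 3 / 2 := by
  have h := cc_succ (wd {0}) 0
  rw [cc_zero] at h
  simp only [wd, ex] at h
  simp only [Nat.zero_add] at h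
  rw [h]
  norm_num

private theorem nm_quart : cc (wd {0}) 2 = 3 / 4 := by
  have h := cc_succ (wd {0}) 1
  rw [nm_one] at h
  simp only [wd, ex] at h
  rw [show (1 : ℕ) + 1 = 2 from rfl] at h
  rw [h]
  norm_num

private theorem nm_mem (K : ℕ) (hK : 2 ≤ K) : ((1, ∅) : ℕ × Finset ℕ) ∈ FP 1 K := by
  classical
  unfold FP
  rw [mem_filter, mem_product, mem_range, mem_powerset]
  refine ⟨⟨by simp; omega, by simp⟩, by simp, ?_, ?_⟩
  · simp only
    rw [nm_half]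
    norm_num
  · intro l hl
    simp only at hl ⊢
    have : l = 0 := by omega
    rw [this, cc_zero]

private theorem nm_mem2 (K : ℕ) (hK : 2 ≤ K) : ((2, {0}) : ℕ × Finset ℕ) ∈ FP 1 K := by
  classical
  unfold FP
  rw [mem_filter, mem_product, mem_range, mem_powerset]
  refine ⟨⟨by simp; omega, by simp⟩, by simp, ?_, ?_⟩
  · simp only
    rw [nm_quart]
    norm_num
  · intro l hl
    simp only at hl ⊢
    have : l = 0 ∨ l = 1 := by omega
    rcases this with h | h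
    · rw [h, cc_zero]
    · rw [h, nm_one]
      norm_num

/-- one word `q` of weight `w` -/
private theorem nm_word (u : ℝ → ℝ) (K : ℕ) (t B w : ℝ) (q : ℕ × Finset ℕ) (hq : q ∈ FP 1 K)
    (hw : (1 / 2 : ℝ) ^ q.1 = w) (ht : 0 < t) (hB : 0 ≤ B)
    (hu : ∀ s, t / 2 ≤ s → s ≤ t → u s ≤ B) :
    ∑ p ∈ FP 1 K, (1 / 2) ^ p.1 * u (cc (wd p.2) p.1 * t) ≤
      B + w * (u (cc (wd q.2) q.1 * t) - B) := by
  classical
  have hterm : ∀ p ∈ FP 1 K, (1 / 2 : ℝ) ^ p.1 * u (cc (wd p.2) p.1 * t) ≤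
      (1 / 2 : ℝ) ^ p.1 * B + (if p = q then w * (u (cc (wd q.2) q.1 * t) - B) else 0) := by
    intro p hp
    obtain ⟨e1, e2, e3, e4, e5⟩ := fp_one hp
    split_ifs with hpq
    · rw [hpq, hw]
      linarith
    · rw [add_zero]
      apply mul_le_mul_of_nonneg_left _ (by positivity)
      apply hu
      · nlinarith
      · nlinarith
  have hsum := sum_le_sum hterm
  rw [sum_add_distrib, ← sum_mul, sum_ite_eq', if_pos hq] at hsum
  have hk := mul_le_mul_of_nonneg_right (fp_kraft K) hB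
  linarith

theorem near_max (c : ℕ) (u : ℝ → ℝ) (h : Renewal c u) (M δ : ℝ) (hM : 0 ≤ M) (hδ : 0 < δ) :
    ∃ T : ℝ, ∀ t, T ≤ t → ∀ κ, δ ≤ κ → (∀ s, t / 2 ≤ s → s ≤ t → u s ≤ M + δ) → M - κ ≤ u t →
      M - 5 * κ ≤ u (t / 2) ∧ M - 11 * κ ≤ u (3 / 4 * t) := by
  obtain ⟨K0, hK0⟩ := exists_pow_lt_of_lt_one (show (0 : ℝ) < δ / 6 by linarith)
    (show (97 / 100 : ℝ) < 1 by norm_num)
  obtain ⟨K, hKdef⟩ : ∃ K, K = K0 + 2 := ⟨_, rfl⟩
  have hK2 : 2 ≤ K := by omega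
  have hKle : (97 / 100 : ℝ) ^ K ≤ (97 / 100 : ℝ) ^ K0 :=
    pow_le_pow_of_le_one (by norm_num) (by norm_num) (by omega)
  have hK : 3 * (97 / 100 : ℝ) ^ K ≤ δ / 2 := by linarith
  have hP : (0 : ℝ) < K2 c K := by exact_mod_cast K2_pos c K
  obtain ⟨T0, hT0⟩ := h.upper
  obtain ⟨T, hTdef⟩ : ∃ T, T = max (max T0 (K2 c K : ℝ))
    (max 1 ((K2 c K : ℝ) * -Real.log (δ / 6))) := ⟨_, rfl⟩
  have hTa : T0 ≤ T := by rw [hTdef]; exact (le_max_left _ _).trans (le_max_left _ _)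
  have hTb : (K2 c K : ℝ) ≤ T := by rw [hTdef]; exact (le_max_right _ _).trans (le_max_left _ _)
  have hTc : 1 ≤ T := by rw [hTdef]; exact (le_max_left _ _).trans (le_max_right _ _)
  have hTd : (K2 c K : ℝ) * -Real.log (δ / 6) ≤ T := by
    rw [hTdef]; exact (le_max_right _ _).trans (le_max_right _ _)
  refine ⟨T, fun t ht κ hκ hu hut => ?_⟩
  have ht0 : 0 < t := by linarith
  have hup := hT0 K t (by omega) (by linarith) (by linarith)
  have hexp : 3 * Real.exp (-(t / K2 c K)) ≤ δ / 2 := by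
    have h1 : -Real.log (δ / 6) ≤ t / K2 c K := by
      rw [le_div_iff₀ hP]
      linarith
    have h2 : Real.exp (-(t / K2 c K)) ≤ Real.exp (Real.log (δ / 6)) :=
      Real.exp_le_exp.2 (by linarith)
    rw [Real.exp_log (by linarith)] at h2
    linarith
  constructor
  · have h1 := nm_word u K t (M + δ) (1 / 2) (1, ∅) (nm_mem K hK2) (by norm_num) ht0
      (by linarith) hu
    have h2 : cc (wd ∅) 1 * t = t / 2 := by rw [nm_half]; ring
    simp only at h1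
    rw [h2] at h1
    linarith
  · have h1 := nm_word u K t (M + δ) (1 / 4) (2, {0}) (nm_mem2 K hK2) (by norm_num) ht0
      (by linarith) hu
    simp only at h1
    rw [nm_quart] at h1
    linarith

theorem near_iter (c : ℕ) (u : ℝ → ℝ) (h : Renewal c u) (M δ : ℝ) (hM : 0 ≤ M) (hδ : 0 < δ)
    (T1 : ℝ) (hT1 : ∀ s, T1 ≤ s → u s ≤ M + δ) :
    ∃ T : ℝ, 1 ≤ T ∧ ∀ (t : ℝ) (j : ℕ), T * 2 ^ (j + 1) ≤ t → M - δ ≤ u t →
      ∀ a b : ℕ, a + b ≤ j → M - 11 ^ j * δ ≤ u ((1 / 2) ^ a * (3 / 4) ^ b * t) := by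
  obtain ⟨T0, hT0⟩ := near_max c u h M δ hM hδ
  obtain ⟨T, hTdef⟩ : ∃ T, T = max (max T0 T1) 1 := ⟨_, rfl⟩
  have hTa : T0 ≤ T := by rw [hTdef]; exact (le_max_left _ _).trans (le_max_left _ _)
  have hTb : T1 ≤ T := by rw [hTdef]; exact (le_max_right _ _).trans (le_max_left _ _)
  have hTc : 1 ≤ T := by rw [hTdef]; exact le_max_right _ _
  refine ⟨T, hTc, fun t j ht hut => ?_⟩
  have ht0 : 0 < t := lt_of_lt_of_le (by positivity) ht
  have hpt : ∀ a b : ℕ, a + b ≤ j → 2 * T ≤ (1 / 2) ^ a * (3 / 4) ^ b * t := by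
    intro a b hab
    have h1 : (1 / 2 : ℝ) ^ b ≤ (3 / 4 : ℝ) ^ b :=
      pow_le_pow_left₀ (by norm_num) (by norm_num) b
    have h2 : (1 / 2 : ℝ) ^ j ≤ (1 / 2 : ℝ) ^ a * (3 / 4) ^ b := by
      calc (1 / 2 : ℝ) ^ j ≤ (1 / 2 : ℝ) ^ (a + b) :=
            pow_le_pow_of_le_one (by norm_num) (by norm_num) hab
        _ = (1 / 2 : ℝ) ^ a * (1 / 2 : ℝ) ^ b := pow_add _ _ _
        _ ≤ (1 / 2 : ℝ) ^ a * (3 / 4) ^ b := mul_le_mul_of_nonneg_left h1 (by positivity)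
    have h3 : (1 / 2 : ℝ) ^ j * t ≤ (1 / 2 : ℝ) ^ a * (3 / 4) ^ b * t :=
      mul_le_mul_of_nonneg_right h2 ht0.le
    have h4 : (1 / 2 : ℝ) ^ j * (T * 2 ^ (j + 1)) ≤ (1 / 2 : ℝ) ^ j * t :=
      mul_le_mul_of_nonneg_left ht (by positivity)
    have h5 : (1 / 2 : ℝ) ^ j * (T * 2 ^ (j + 1)) = 2 * T := by
      rw [pow_succ, one_div, inv_pow]
      field_simp
    linarith
  have hstep : ∀ s κ : ℝ, 2 * T ≤ s → δ ≤ κ → M - κ ≤ u s →
      M - 11 * κ ≤ u (1 / 2 * s) ∧ M - 11 * κ ≤ u (3 / 4 * s) := by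
    intro s κ hs hκ hus
    obtain ⟨h1, h2⟩ := hT0 s (by linarith) κ hκ (fun x hx _ => hT1 x (by linarith)) hus
    refine ⟨?_, h2⟩
    rw [show 1 / 2 * s = s / 2 by ring]
    linarith
  have hmain : ∀ n a b : ℕ, a + b = n → n ≤ j →
      M - 11 ^ n * δ ≤ u ((1 / 2) ^ a * (3 / 4) ^ b * t) := by
    intro n
    induction n with
    | zero =>
      intro a b hab _
      have ha : a = 0 := by omega
      have hb : b = 0 := by omega
      rw [ha, hb, pow_zero, pow_zero, pow_zero, one_mul, one_mul, one_mul]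
      exact hut
    | succ n ih =>
      intro a b hab hn
      have hκ : δ ≤ 11 ^ n * δ := by
        have : (1 : ℝ) ≤ 11 ^ n := one_le_pow₀ (by norm_num)
        nlinarith
      have e11 : (11 : ℝ) ^ (n + 1) * δ = 11 * (11 ^ n * δ) := by ring
      rw [e11]
      rcases Nat.eq_zero_or_pos a with ha | ha
      · obtain ⟨b', rfl⟩ : ∃ b', b = b' + 1 := ⟨b - 1, by omega⟩
        have h1 := ih a b' (by omega) (by omega)
        have h2 := (hstep _ _ (hpt a b' (by omega)) hκ h1).2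
        have e : (1 / 2 : ℝ) ^ a * (3 / 4) ^ (b' + 1) * t =
            3 / 4 * ((1 / 2) ^ a * (3 / 4) ^ b' * t) := by ring
        rw [e]
        exact h2
      · obtain ⟨a', rfl⟩ : ∃ a', a = a' + 1 := ⟨a - 1, by omega⟩
        have h1 := ih a' b (by omega) (by omega)
        have h2 := (hstep _ _ (hpt a' b (by omega)) hκ h1).1
        have e : (1 / 2 : ℝ) ^ (a' + 1) * (3 / 4) ^ b * t =
            1 / 2 * ((1 / 2) ^ a' * (3 / 4) ^ b * t) := by ring
        rw [e]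
        exact h2
  intro a b hab
  have h1 := hmain (a + b) a b rfl hab
  have h2 : (11 : ℝ) ^ (a + b) ≤ 11 ^ j := pow_le_pow_right₀ (by norm_num) hab
  have h3 : (11 : ℝ) ^ (a + b) * δ ≤ 11 ^ j * δ := mul_le_mul_of_nonneg_right h2 hδ.le
  linarith

end Pool.Agent.Work.MP_215640_nt
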