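import Pool.Agent.Work.MP_215640_nt.R.WindowR
import Pool.Agent.Work.MP_215640_nt.R.FibreR
import Pool.Agent.Work.MP_215640_nt.R.FGe

/-!
MODULE RENEWR. `U/Renew.lean` for the windows `[e^t, e^((1+r)t))` and for sets `G` closed under preimages
only above `e^t`.

The same proof as `U/Renew.lean` with `word_windowR`, `fibre_lr`. The closure is used for the numbers
`J^[i] n = F w i n`, `i < k`, `n ≥ e^t`: from `J^[k] n ∈ G` deduce `J^[i] n ∈ G` downwards for
`i = k - 1, ..., 0`, using `hG` at `J^[i] n`, which is `≥ n ≥ e^t`: for `i = 0` trivial, for `1 ≤ i < k`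
`cc w i > 1` (`Posw`) and `F_ge_self` (`t ≥ K2 c K ≥ 2^(2 i + 1)` when `c ≥ 10`, as `i < K`; e.g.
`two_pow_le_K2`).
-/

set_option autoImplicit false

namespace Pool.Agent.Work.MP_215640_nt

open Finset Polynomial Filter N55eda7c2

/-- from `J^[k] n ∈ G` to `n ∈ G`, for the words that stay above `1` -/
private theorem rr_closed (K : ℕ) (t : ℝ) (G : Set ℕ)
    (hG : ∀ n : ℕ, Real.exp t ≤ n → jugglerStep n ∈ G → n ∈ G) (ht : (2 : ℝ) ^ (2 * K + 1) ≤ t)
    (w : ℕ → Bool) (k : ℕ) (hk : k ≤ K) (hw : Posw w k) (n : ℕ) (hn : Real.exp t ≤ n)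
    (hpat : Pat w w (range k) n) (h : F w k n ∈ G) : n ∈ G := by
  have hJ := J_iter w k n (fun j hj => hpat j (mem_range.2 hj))
  have hge : ∀ i < k, Real.exp t ≤ (F w i n : ℝ) := by
    intro i hi
    refine hn.trans ?_
    rcases Nat.eq_zero_or_pos i with rfl | hi0
    · rw [F_zero]
    · have h1 := F_ge_self w i n (fun j hj1 hj2 => hw j hj1 (hj2.trans hi)) (hw i hi0 hi) (by
        refine le_trans (Real.exp_le_exp.2 ?_) hn
        refine le_trans ?_ ht
        apply pow_le_pow_right₀ (by norm_num)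
        omega)
      exact_mod_cast h1
  have hdown : ∀ i ≤ k, F w i n ∈ G → n ∈ G := by
    intro i
    induction i with
    | zero =>
      intro _ h0
      rwa [F_zero] at h0
    | succ i ih =>
      intro hi h1
      apply ih (by omega)
      refine hG _ (hge i (by omega)) ?_
      rw [← hJ i (by omega), ← Function.iterate_succ_apply' jugglerStep i n, hJ (i + 1) hi]
      exact h1
  exact hdown k le_rfl h

private theorem rr_disj (K : ℕ) (t r : ℝ) (G : Set ℕ)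
    (hG : ∀ n : ℕ, Real.exp t ≤ n → jugglerStep n ∈ G → n ∈ G) (ht : (2 : ℝ) ^ (2 * K + 1) ≤ t) :
    ∑ p ∈ FP 1 K, Lr {n | F (wd p.2) p.1 n ∈ G ∧ Pat (wd p.2) (wd p.2) (range p.1) n} t r ≤
      Lr G t r := by
  classical
  obtain ⟨W, hW⟩ : ∃ W : Finset ℕ, W = (range ⌈Real.exp ((1 + r) * t)⌉₊).filter
    (fun n : ℕ => Real.exp t ≤ n) := ⟨_, rfl⟩
  have hLr : ∀ S : Set ℕ, Lr S t r = ∑ n ∈ W, if n ∈ S then (1 : ℝ) / n else 0 := by
    intro S
    unfold Lr
    rw [← sum_filter, hW, filter_filter]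
    apply sum_congr _ fun _ _ => rfl
    ext n
    simp only [mem_filter]
    tauto
  rw [hLr G, sum_congr rfl fun p _ => hLr _, sum_comm]
  refine sum_le_sum fun n hnW => ?_
  have hnt : Real.exp t ≤ n := by
    rw [hW, mem_filter] at hnW
    exact hnW.2
  by_cases hex : ∃ p ∈ FP 1 K, n ∈ {n | F (wd p.2) p.1 n ∈ G ∧
      Pat (wd p.2) (wd p.2) (range p.1) n}
  · obtain ⟨p0, hp0, hn0⟩ := hex
    rw [sum_eq_single p0]
    · rw [if_pos hn0]
      have hnG : n ∈ G := by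
        obtain ⟨h1, h2⟩ := hn0
        obtain ⟨q1, q2, q3, q4, q5⟩ := fp_one hp0
        exact rr_closed K t G hG ht (wd p0.2) p0.1 q2 q3 n hnt h2 h1
      rw [if_pos hnG]
    · intro p hp hne
      rw [if_neg]
      intro hn
      exact hne (fp_unique hp hp0 p.1 p0.1 n le_rfl le_rfl hn.2 hn0.2)
    · exact fun h => absurd hp0 h
  · push Not at hex
    refine le_trans (le_of_eq (sum_eq_zero fun p hp => ?_)) ?_
    · rw [if_neg (hex p hp)]
    · split_ifs <;> positivity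

private theorem rr_card (K : ℕ) : ((FP 1 K).card : ℝ) ≤ 2 ^ (2 * K + 2) := by
  classical
  have h1 : (FP 1 K).card ≤ (K + 1) * 2 ^ (K + 1) := by
    unfold FP
    refine (card_filter_le _ _).trans ?_
    rw [card_product, card_powerset, card_range]
  have h2 : K + 1 ≤ 2 ^ (K + 1) := (Nat.lt_two_pow_self (n := K + 1)).le
  have h3 : (FP 1 K).card ≤ 2 ^ (2 * K + 2) := by
    calc (FP 1 K).card ≤ (K + 1) * 2 ^ (K + 1) := h1
      _ ≤ 2 ^ (K + 1) * 2 ^ (K + 1) := Nat.mul_le_mul_right _ h2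
      _ = 2 ^ (2 * K + 2) := by rw [← pow_add]; congr 1; ring
  exact_mod_cast h3

private theorem rr_num (c' K : ℕ) (hK : 1 ≤ K) (t : ℝ) (ht : (K2 (2 * c' + 10) K : ℝ) ≤ t) :
    2 ^ (2 * K + 3) * Real.exp (-(t / K2 c' K)) ≤ Real.exp (-(t / K2 (2 * c' + 10) K)) := by
  obtain ⟨q, hq⟩ : ∃ q : ℝ, q = K2 c' K := ⟨_, rfl⟩
  obtain ⟨z, hz⟩ : ∃ z : ℝ, z = K2 10 K := ⟨_, rfl⟩
  have hq1 : 1 ≤ q := by rw [hq]; exact_mod_cast K2_pos c' K
  have hKK : (K2 (2 * c' + 10) K : ℝ) = q * q * z := by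
    rw [hq, hz, K2_add, two_mul, K2_add]
    push_cast
    ring
  have hz1 : 2 * (2 * (K : ℝ) + 3) ≤ z := by
    rw [hz]
    have h1 : 2 * (2 * K + 3) ≤ K2 10 K := by
      unfold K2
      calc 2 * (2 * K + 3) ≤ 2 ^ (10 * K) := by
            have h2 : K < 2 ^ K := Nat.lt_two_pow_self
            have h3 : 2 ^ (10 * K) = 2 ^ K * (2 ^ K) ^ 9 := by
              rw [← pow_mul, ← pow_add]; congr 1; ring
            have h4 : 2 ^ 9 ≤ (2 ^ K) ^ 9 := by
              apply Nat.pow_le_pow_left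
              calc 2 = 2 ^ 1 := by norm_num
                _ ≤ 2 ^ K := Nat.pow_le_pow_right (by norm_num) hK
            rw [h3]
            have h5 : K * 2 ^ 9 ≤ 2 ^ K * (2 ^ K) ^ 9 := Nat.mul_le_mul h2.le h4
            omega
        _ ≤ 2 ^ (10 * K ^ 2) := by
            apply Nat.pow_le_pow_right (by norm_num)
            nlinarith
    exact_mod_cast h1
  rw [hKK] at ht ⊢
  rw [← hq]
  have hK0 : (0 : ℝ) ≤ K := Nat.cast_nonneg _
  have hz0 : 6 ≤ z := by linarith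
  have hq0 : 0 < q := by linarith
  have hz00 : 0 < z := by linarith
  have ht0 : 0 < t := lt_of_lt_of_le (by positivity) ht
  have h2q : 2 * q ≤ q * q * z := by
    have : 2 ≤ q * z := by nlinarith
    nlinarith
  have h7 : t / (q * q * z) ≤ t / (2 * q) :=
    div_le_div_of_nonneg_left ht0.le (by positivity) h2q
  have h8 : t / q = 2 * (t / (2 * q)) := by field_simp
  have h9 : 2 * (K : ℝ) + 3 ≤ t / (2 * q) := by
    rw [le_div_iff₀ (by positivity)]
    have : (2 * (K : ℝ) + 3) * (2 * q) ≤ z * q := by nlinarith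
    have h10 : z * q ≤ q * q * z := by nlinarith [mul_pos hq0 hz00]
    linarith
  have h11 : (2 : ℝ) ^ (2 * K + 3) ≤ Real.exp (2 * K + 3) := by
    have h12 : (2 : ℝ) ≤ Real.exp 1 := by
      have := Real.add_one_le_exp (1 : ℝ)
      linarith
    calc (2 : ℝ) ^ (2 * K + 3) ≤ (Real.exp 1) ^ (2 * K + 3) :=
          pow_le_pow_left₀ (by norm_num) h12 _
      _ = Real.exp (2 * K + 3) := by
          rw [← Real.exp_nat_mul]
          congr 1
          push_cast
          ring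
  calc 2 ^ (2 * K + 3) * Real.exp (-(t / q)) ≤ Real.exp (t / (2 * q)) * Real.exp (-(t / q)) := by
        apply mul_le_mul_of_nonneg_right _ (Real.exp_pos _).le
        exact h11.trans (Real.exp_le_exp.2 h9)
    _ = Real.exp (t / (2 * q) - t / q) := by
        rw [← Real.exp_add]; congr 1
    _ ≤ Real.exp (-(t / (q * q * z))) := by
        apply Real.exp_le_exp.2
        linarith

theorem renewR (hW : WordThm) :
    ∃ c : ℕ, ∀ (K : ℕ) (t r : ℝ) (G : Set ℕ), 1 ≤ K → (K2 c K : ℝ) ≤ t → 0 < r → r ≤ 3 →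
      (∀ n : ℕ, Real.exp t ≤ n → jugglerStep n ∈ G → n ∈ G) →
      ∑ p ∈ FP 1 K, (1 / 2) ^ p.1 / cc (wd p.2) p.1 * Lr G (cc (wd p.2) p.1 * t) r
        - Real.exp (-(t / K2 c K)) ≤ Lr G t r := by
  classical
  obtain ⟨c1, h1⟩ := word_windowR hW
  obtain ⟨c2, h2⟩ := fibre_lr
  obtain ⟨c', hc'⟩ : ∃ c' : ℕ, c' = max c1 c2 := ⟨_, rfl⟩
  have hc1 : c1 ≤ c' := by rw [hc']; exact le_max_left _ _
  have hc2 : c2 ≤ c' := by rw [hc']; exact le_max_right _ _
  refine ⟨2 * c' + 10, fun K t r G hK ht hr0 hr3 hG => ?_⟩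
  have hK0 : (0 : ℝ) < K2 (2 * c' + 10) K := by exact_mod_cast K2_pos _ _
  have ht0 : 0 < t := lt_of_lt_of_le hK0 ht
  have ht2 : (2 : ℝ) ^ (2 * K + 1) ≤ t := by
    refine le_trans ?_ ht
    have h3 : 2 ^ (2 * K + 1) ≤ K2 (2 * c' + 10) K :=
      (Nat.pow_le_pow_right (by norm_num) (by omega)).trans
        (two_pow_le_K2 (a := 3) hK (by omega))
    exact_mod_cast h3
  have hexp : ∀ (a k : ℕ), a ≤ c' → k ≤ K →
      Real.exp (-(t / K2 a k)) ≤ Real.exp (-(t / K2 c' K)) := by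
    intro a k ha hk
    apply Real.exp_le_exp.2
    apply neg_le_neg
    apply div_le_div_of_nonneg_left ht0.le
    · exact_mod_cast K2_pos _ _
    · exact_mod_cast K2_le ha hk
  have hterm : ∀ p ∈ FP 1 K, (1 / 2) ^ p.1 / cc (wd p.2) p.1 * Lr G (cc (wd p.2) p.1 * t) r -
      2 * Real.exp (-(t / K2 c' K)) ≤
      Lr {n | F (wd p.2) p.1 n ∈ G ∧ Pat (wd p.2) (wd p.2) (range p.1) n} t r := by
    intro p hp
    obtain ⟨q1, q2, q3, q4, q5⟩ := fp_one hp
    have hle : ∀ a, a ≤ c' → (K2 a p.1 : ℝ) ≤ t := by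
      intro a ha
      refine le_trans ?_ ht
      have : K2 a p.1 ≤ K2 (2 * c' + 10) K := K2_le (by omega) q2
      exact_mod_cast this
    have e1 := h1 p.1 (wd p.2) t r G q1 q3 q5 (hle c1 hc1) hr0 hr3
    have e2 := h2 p.1 (wd p.2) t r G q1 q3 q5 q4 (hle c2 hc2) hr0 hr3
    have e3 := hexp c1 p.1 hc1 q2
    have e4 := hexp c2 p.1 hc2 q2
    have hhalf0 : (0 : ℝ) < (1 / 2) ^ p.1 := by positivity
    have hhalf1 : ((1 : ℝ) / 2) ^ p.1 ≤ 1 := pow_le_one₀ (by norm_num) (by norm_num)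
    have e5 := mul_le_mul_of_nonneg_left e2 hhalf0.le
    have e6 : ((1 : ℝ) / 2) ^ p.1 * Real.exp (-(t / K2 c2 p.1)) ≤
        1 * Real.exp (-(t / K2 c2 p.1)) :=
      mul_le_mul_of_nonneg_right hhalf1 (Real.exp_pos _).le
    have e7 : (1 / 2) ^ p.1 / cc (wd p.2) p.1 * Lr G (cc (wd p.2) p.1 * t) r =
        (1 / 2) ^ p.1 * (1 / cc (wd p.2) p.1 * Lr G (cc (wd p.2) p.1 * t) r) := by ring
    rw [mul_sub] at e5
    rw [e7]
    linarith
  have hsum := (sum_le_sum hterm).trans (rr_disj K t r G hG ht2)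
  rw [sum_sub_distrib, sum_const, nsmul_eq_mul] at hsum
  have hnum := rr_num c' K hK t ht
  have hcard := rr_card K
  have hexp0 : 0 < Real.exp (-(t / K2 c' K)) := Real.exp_pos _
  have hfin : ((FP 1 K).card : ℝ) * (2 * Real.exp (-(t / K2 c' K))) ≤
      2 ^ (2 * K + 3) * Real.exp (-(t / K2 c' K)) := by
    have : (2 : ℝ) ^ (2 * K + 3) = 2 ^ (2 * K + 2) * 2 := by rw [← pow_succ]
    rw [this]
    nlinarith
  linarith

end Pool.Agent.Work.MP_215640_nt
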