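import Pool.Agent.Work.MP_215640_nt.R.DefsR

/-!
SECTION R, the abstract hypotheses on the normalised mass `u t = Lr G t 3/t`.
-/

set_option autoImplicit false

namespace Pool.Agent.Work.MP_215640_nt

open Finset Polynomial Filter

/-- a bounded, slowly varying function which satisfies the renewal inequalities in both directions -/
structure Renewal (c : ℕ) (u : ℝ → ℝ) : Prop where
  nonneg : ∀ t, 0 < t → 0 ≤ u t
  le_three : ∀ t, 1 ≤ t → u t ≤ 3 + Real.exp (-t)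
  lower : ∃ T, ∀ (K : ℕ) (t : ℝ), 1 ≤ K → T ≤ t → (K2 c K : ℝ) ≤ t →
    ∑ p ∈ FP 1 K, (1 / 2) ^ p.1 * u (cc (wd p.2) p.1 * t) - Real.exp (-(t / K2 c K)) ≤ u t
  upper : ∃ T, ∀ (K : ℕ) (t : ℝ), 1 ≤ K → T ≤ t → (K2 c K : ℝ) ≤ t →
    u t ≤ ∑ p ∈ FP 1 K, (1 / 2) ^ p.1 * u (cc (wd p.2) p.1 * t) + 3 * (97 / 100) ^ K
      + 3 * Real.exp (-(t / K2 c K))
  lip : ∀ t t', 1 ≤ t → t ≤ t' → |u t' - u t| ≤ 9 * ((t' - t) / t) + 2 * Real.exp (-t)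

end Pool.Agent.Work.MP_215640_nt
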