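import Pool.Agent.Work.MP_215640_nt.R.RenewR
import Pool.Agent.Work.MP_215640_nt.R.Kraft

/-!
MODULE UPPERR. The renewal inequality in the other direction, for `r = 3`.

The complement `Gᶜ` satisfies the hypothesis of `renewR`. Divide `renewR` for `Gᶜ` by `t`
(`(1/cc) Lr · (cc t) 3/t = Lr · (cc t) 3/(cc t)`). With `v s = Lr Gᶜ s 3/s`, `u s = Lr G s 3/s`:
`u s + v s = Lr univ s 3/s`, which is between `3 - e^(-s)/s` and `3 + e^(-s)/s` (`Lr_compl`, `Lr_le`,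
`Lr_full`). So `u t ≤ 3 + e^(-t) - v t ≤ 3 + e^(-t) - ∑_p 2^(-p.1) (3 - e^(-t/2) - u (cc t)) + exp(-t/K2 c K)`
(`cc t ≥ t/2 ≥ 1`), `∑_p 2^(-p.1) ∈ [1 - (97/100)^K, 1]` (`fp_mass 1`, `fp_kraft`), and
`e^(-t) + e^(-t/2) ≤ 2 exp(-t/K2 c K)` if `K2 c K ≥ 2` (take `c ≥ 1`; enlarging the constant `c` of
`renewR` is harmless: `K2_le`).
-/

set_option autoImplicit false

namespace Pool.Agent.Work.MP_215640_nt

open Finset Polynomial Filter N55eda7c2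

private theorem up_sum_le (G : Set ℕ) (s : ℝ) (hs : 1 ≤ s) :
    Lr G s 3 / s + Lr Gᶜ s 3 / s ≤ 3 + Real.exp (-s) := by
  have h0 : 0 < s := by linarith
  have h1 := Lr_le Set.univ s 3 h0.le (by norm_num)
  have h2 := Lr_compl G s 3
  have he : 0 < Real.exp (-s) := Real.exp_pos _
  rw [← add_div, h2, div_le_iff₀ h0]
  nlinarith

private theorem up_sum_ge (G : Set ℕ) (s : ℝ) (hs : 1 ≤ s) :
    3 - Real.exp (-s) ≤ Lr G s 3 / s + Lr Gᶜ s 3 / s := by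
  have h0 : 0 < s := by linarith
  have h1 := Lr_full Set.univ s 3 h0.le (fun _ _ _ => Set.mem_univ _)
  have h2 := Lr_compl G s 3
  have he : 0 < Real.exp (-s) := Real.exp_pos _
  rw [← add_div, h2, le_div_iff₀ h0]
  nlinarith

theorem upperR (hW : WordThm) :
    ∃ c : ℕ, ∀ (K : ℕ) (t : ℝ) (G : Set ℕ), 1 ≤ K → (K2 c K : ℝ) ≤ t →
      (∀ n : ℕ, Real.exp t ≤ n → n ∈ G → jugglerStep n ∈ G) →
      Lr G t 3 / t ≤
        ∑ p ∈ FP 1 K, (1 / 2) ^ p.1 * (Lr G (cc (wd p.2) p.1 * t) 3 / (cc (wd p.2) p.1 * t))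
          + 3 * (97 / 100) ^ K + 3 * Real.exp (-(t / K2 c K)) := by
  obtain ⟨c0, hc0⟩ := renewR hW
  refine ⟨c0 + 1, fun K t G hK hKt hG => ?_⟩
  have hle : (K2 c0 K : ℝ) ≤ (K2 (c0 + 1) K : ℝ) := by
    exact_mod_cast (K2_le (Nat.le_succ c0) le_rfl : K2 c0 K ≤ K2 (c0 + 1) K)
  have hP0 : (0 : ℝ) < K2 c0 K := by exact_mod_cast K2_pos c0 K
  have hP : (0 : ℝ) < K2 (c0 + 1) K := by exact_mod_cast K2_pos (c0 + 1) K
  have hP2 : (2 : ℝ) ≤ K2 (c0 + 1) K := by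
    have h1 := two_pow_le_K2 (c := c0 + 1) (k := K) (a := 1) hK (by omega)
    have h2 : 2 ^ 1 ≤ 2 ^ (1 * K) := Nat.pow_le_pow_right (by norm_num) (by omega)
    have h3 : 2 ≤ K2 (c0 + 1) K := by omega
    exact_mod_cast h3
  have ht2 : 2 ≤ t := hP2.trans hKt
  have ht0 : 0 < t := by linarith
  have hcompl := hc0 K t 3 Gᶜ hK (hle.trans hKt) (by norm_num) le_rfl (by
    intro n hn hj hnG
    exact hj (hG n hn hnG))
  -- divide by `t`
  have hdiv : ∑ p ∈ FP 1 K, (1 / 2 : ℝ) ^ p.1 *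
      (Lr Gᶜ (cc (wd p.2) p.1 * t) 3 / (cc (wd p.2) p.1 * t))
        - Real.exp (-(t / K2 c0 K)) ≤ Lr Gᶜ t 3 / t := by
    rw [le_div_iff₀ ht0]
    have h1 : (∑ p ∈ FP 1 K, (1 / 2 : ℝ) ^ p.1 *
        (Lr Gᶜ (cc (wd p.2) p.1 * t) 3 / (cc (wd p.2) p.1 * t))) * t =
        ∑ p ∈ FP 1 K, (1 / 2) ^ p.1 / cc (wd p.2) p.1 * Lr Gᶜ (cc (wd p.2) p.1 * t) 3 := by
      rw [sum_mul]
      refine sum_congr rfl fun p hp => ?_
      obtain ⟨e1, e2, e3, e4, e5⟩ := fp_one hp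
      have e6 : cc (wd p.2) p.1 ≠ 0 := by linarith
      field_simp
    have h2 : Real.exp (-(t / K2 c0 K)) ≤ Real.exp (-(t / K2 c0 K)) * t := by
      have : 0 < Real.exp (-(t / K2 c0 K)) := Real.exp_pos _
      nlinarith
    rw [sub_mul, h1]
    linarith
  have hterm : ∀ p ∈ FP 1 K, (1 / 2 : ℝ) ^ p.1 * (3 - Real.exp (-(t / 2))) ≤
      (1 / 2 : ℝ) ^ p.1 * (Lr G (cc (wd p.2) p.1 * t) 3 / (cc (wd p.2) p.1 * t)) +
      (1 / 2 : ℝ) ^ p.1 * (Lr Gᶜ (cc (wd p.2) p.1 * t) 3 / (cc (wd p.2) p.1 * t)) := by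
    intro p hp
    obtain ⟨e1, e2, e3, e4, e5⟩ := fp_one hp
    rw [← mul_add]
    apply mul_le_mul_of_nonneg_left _ (by positivity)
    have h1 : t / 2 ≤ cc (wd p.2) p.1 * t := by nlinarith
    have h2 := up_sum_ge G (cc (wd p.2) p.1 * t) (by linarith)
    have h3 : Real.exp (-(cc (wd p.2) p.1 * t)) ≤ Real.exp (-(t / 2)) :=
      Real.exp_le_exp.2 (by linarith)
    linarith
  have hsum := sum_le_sum hterm
  rw [← sum_mul, sum_add_distrib] at hsum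
  have hmass := fp_mass 1 one_pos K
  rw [Real.one_rpow, one_mul] at hmass
  have he2 : Real.exp (-(t / 2)) ≤ 1 := Real.exp_le_one_iff.2 (by linarith)
  have he2' : 0 < Real.exp (-(t / 2)) := Real.exp_pos _
  have h97 : (0 : ℝ) < (97 / 100) ^ K := by positivity
  have hm := mul_le_mul_of_nonneg_right hmass
    (show 0 ≤ 3 - Real.exp (-(t / 2)) by linarith)
  have hm2 : 3 - Real.exp (-(t / 2)) - 3 * (97 / 100) ^ K ≤
      (1 - (97 / 100) ^ K) * (3 - Real.exp (-(t / 2))) := by nlinarith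
  have htop := up_sum_le G t (by linarith)
  have hq : t / K2 (c0 + 1) K ≤ t / 2 := div_le_div_of_nonneg_left ht0.le (by norm_num) hP2
  have x1 : Real.exp (-t) ≤ Real.exp (-(t / K2 (c0 + 1) K)) :=
    Real.exp_le_exp.2 (by linarith)
  have x2 : Real.exp (-(t / 2)) ≤ Real.exp (-(t / K2 (c0 + 1) K)) :=
    Real.exp_le_exp.2 (by linarith)
  have x3 : Real.exp (-(t / K2 c0 K)) ≤ Real.exp (-(t / K2 (c0 + 1) K)) := by
    apply Real.exp_le_exp.2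
    have := div_le_div_of_nonneg_left ht0.le hP0 hle
    linarith
  linarith

end Pool.Agent.Work.MP_215640_nt
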