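import Pool.Agent.Work.MP_215640_nt.R.Renewal
import Pool.Agent.Work.MP_215640_nt.R.UpperR
import Pool.Agent.Work.MP_215640_nt.R.LipR

/-!
MODULE RENEWALOF. The normalised mass satisfies the hypotheses `Renewal`.

`c` = the maximum of the constants of `renewR` and `upperR` (`K2_le`; `exp(-t/K2 c K)` increases with `c`).
`T` with `jugglerStep n ∈ G ↔ n ∈ G` for all `n ≥ e^T`. `lower`: `renewR` with `r = 3` divided by `t`
(`(1/cc) Lr G (cc t) 3/t = Lr G (cc t) 3/(cc t)`, `exp(-t/K2)/t ≤ exp(-t/K2)`). `upper`: `upperR`.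
`nonneg`: `Lr_nonneg`. `le_three`: `Lr_le` divided by `t ≥ 1`. `lip`: `lr_lip`.
-/

set_option autoImplicit false

namespace Pool.Agent.Work.MP_215640_nt

open Finset Polynomial Filter N55eda7c2

private theorem ro_exp {c c' K : ℕ} (h : c ≤ c') {t : ℝ} (ht : 0 ≤ t) :
    Real.exp (-(t / K2 c K)) ≤ Real.exp (-(t / K2 c' K)) := by
  apply Real.exp_le_exp.2
  have h1 : (0 : ℝ) < K2 c K := by exact_mod_cast K2_pos c K
  have h2 : (K2 c K : ℝ) ≤ K2 c' K := by exact_mod_cast K2_le h le_rfl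
  have h3 : t / K2 c' K ≤ t / K2 c K := div_le_div_of_nonneg_left ht h1 h2
  linarith

theorem renewal_of (hW : WordThm) :
    ∃ c : ℕ, ∀ G : Set ℕ, (∀ᶠ n : ℕ in atTop, (jugglerStep n ∈ G ↔ n ∈ G)) →
      Renewal c (fun t => Lr G t 3 / t) := by
  obtain ⟨c1, h1⟩ := renewR hW
  obtain ⟨c2, h2⟩ := upperR hW
  refine ⟨max c1 c2, fun G hG => ?_⟩
  obtain ⟨n0, hn0⟩ := eventually_atTop.1 hG
  have hbig : ∀ t : ℝ, (n0 : ℝ) ≤ t → ∀ n : ℕ, Real.exp t ≤ n → n0 ≤ n := by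
    intro t ht n hn
    have h3 := Real.add_one_le_exp t
    have h4 : (n0 : ℝ) ≤ n := by linarith
    exact_mod_cast h4
  refine ⟨?_, ?_, ?_, ?_, ?_⟩
  · intro t ht
    exact div_nonneg (Lr_nonneg G t 3) ht.le
  · intro t ht
    have h3 := Lr_le G t 3 (by linarith) (by norm_num)
    have h4 : 0 < Real.exp (-t) := Real.exp_pos _
    rw [div_le_iff₀ (by linarith)]
    nlinarith
  · refine ⟨n0, fun K t hK hT ht => ?_⟩
    have hc1 : (K2 c1 K : ℝ) ≤ t := by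
      refine le_trans ?_ ht
      exact_mod_cast K2_le (le_max_left c1 c2) le_rfl
    have hK2 : (1 : ℝ) ≤ K2 c1 K := by exact_mod_cast K2_pos c1 K
    have ht1 : 1 ≤ t := hK2.trans hc1
    have h3 := h1 K t 3 G hK hc1 (by norm_num) le_rfl
      (fun n hn hj => (hn0 n (hbig t hT n hn)).1 hj)
    have h4 := ro_exp (K := K) (le_max_left c1 c2) (show 0 ≤ t by linarith)
    have h5 : 0 < Real.exp (-(t / K2 c1 K)) := Real.exp_pos _
    have h6 : ∑ p ∈ FP 1 K, (1 / 2) ^ p.1 * (Lr G (cc (wd p.2) p.1 * t) 3 / (cc (wd p.2) p.1 * t)) =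
        (∑ p ∈ FP 1 K, (1 / 2) ^ p.1 / cc (wd p.2) p.1 * Lr G (cc (wd p.2) p.1 * t) 3) / t := by
      rw [sum_div]
      refine sum_congr rfl fun p _ => ?_
      have h7 : cc (wd p.2) p.1 ≠ 0 := (cc_pos _ _).ne'
      field_simp
    show ∑ p ∈ FP 1 K, (1 / 2) ^ p.1 * (Lr G (cc (wd p.2) p.1 * t) 3 / (cc (wd p.2) p.1 * t)) -
      Real.exp (-(t / K2 (max c1 c2) K)) ≤ Lr G t 3 / t
    rw [h6, le_div_iff₀ (by linarith), sub_mul, div_mul_cancel₀ _ (by linarith)]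
    nlinarith
  · refine ⟨n0, fun K t hK hT ht => ?_⟩
    have hc2 : (K2 c2 K : ℝ) ≤ t := by
      refine le_trans ?_ ht
      exact_mod_cast K2_le (le_max_right c1 c2) le_rfl
    have hK2 : (1 : ℝ) ≤ K2 c2 K := by exact_mod_cast K2_pos c2 K
    have ht1 : 1 ≤ t := hK2.trans hc2
    have h3 := h2 K t G hK hc2 (fun n hn hj => (hn0 n (hbig t hT n hn)).2 hj)
    have h4 := ro_exp (K := K) (le_max_right c1 c2) (show 0 ≤ t by linarith)
    show Lr G t 3 / t ≤ _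
    linarith
  · intro t t' ht htt
    exact lr_lip G t t' 3 ht htt (by norm_num) le_rfl

end Pool.Agent.Work.MP_215640_nt
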